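import Mathlib

/-!
# Weighted sums over squarefree numbers with few prime factors
-/

set_option autoImplicit false
set_option linter.unusedSectionVars false

namespace Pool.Agent.Q28.CS

open Finset

/-- products of at most `I` different elements of `P` -/
def MM (P : Finset ℕ) (I : ℕ) : Finset ℕ := (P.powerset.filter fun S => #S ≤ I).image fun S => ∏ p ∈ S, p

/-- the weight -/
noncomputable def ww (l : ℝ) (n : ℕ) : ℝ := l ^ #n.primeFactors

variable {P : Finset ℕ} {I : ℕ} {l : ℝ}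

lemma squarefree_prod {S : Finset ℕ} (hS : ∀ p ∈ S, p.Prime) : Squarefree (∏ p ∈ S, p) := by
  classical
  induction S using Finset.induction_on with
  | empty => simp
  | insert p S hp ih =>
    rw [prod_insert hp, Nat.squarefree_mul_iff]
    refine ⟨?_, (hS p (mem_insert_self _ _)).prime.squarefree, ih fun r hr => hS r (mem_insert_of_mem hr)⟩
    refine Nat.Coprime.prod_right fun r hr => ?_
    rw [Nat.coprime_primes (hS p (mem_insert_self _ _)) (hS r (mem_insert_of_mem hr))]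
    rintro rfl
    exact hp hr

lemma mem_MM (hP : ∀ p ∈ P, p.Prime) {n : ℕ} :
    n ∈ MM P I ↔ Squarefree n ∧ n.primeFactors ⊆ P ∧ #n.primeFactors ≤ I := by
  unfold MM
  rw [mem_image]
  constructor
  · rintro ⟨S, hS, rfl⟩
    rw [mem_filter, mem_powerset] at hS
    have h1 : ∀ p ∈ S, p.Prime := fun p hp => hP p (hS.1 hp)
    rw [Nat.primeFactors_prod h1]
    exact ⟨squarefree_prod h1, hS⟩
  · rintro ⟨h1, h2, h3⟩
    exact ⟨n.primeFactors, mem_filter.2 ⟨mem_powerset.2 h2, h3⟩, Nat.prod_primeFactors_of_squarefree h1⟩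

lemma MM_pos (hP : ∀ p ∈ P, p.Prime) {n : ℕ} (hn : n ∈ MM P I) : 0 < n :=
  Nat.pos_of_ne_zero ((mem_MM hP).1 hn).1.ne_zero

lemma MM_dvd (hP : ∀ p ∈ P, p.Prime) {n d : ℕ} (hn : n ∈ MM P I) (hd : d ∣ n) : d ∈ MM P I := by
  have h0 := (MM_pos hP hn).ne'
  rw [mem_MM hP] at hn ⊢
  have h1 := Nat.primeFactors_mono hd h0
  exact ⟨hn.1.squarefree_of_dvd hd, h1.trans hn.2.1, (card_le_card h1).trans hn.2.2⟩

lemma ww_nonneg (hl : 0 ≤ l) (n : ℕ) : 0 ≤ ww l n := pow_nonneg hl _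

lemma ww_mul {m n : ℕ} (h : m.Coprime n) : ww l (m * n) = ww l m * ww l n := by
  unfold ww
  rw [h.primeFactors_mul, card_union_of_disjoint h.disjoint_primeFactors, pow_add]

lemma prod_le_self {a : ℕ} (ha : 0 < a) {Q : Finset ℕ} (hQ : Q ⊆ a.primeFactors) : ∏ p ∈ Q, p ≤ a := by
  refine Nat.le_of_dvd ha (dvd_trans ?_ (Nat.prod_primeFactors_dvd a))
  exact prod_dvd_prod_of_subset _ _ _ hQ

lemma pow_card_le {c : ℝ} (hc0 : 0 ≤ c) {a : ℕ} (ha : 0 < a) {Q : Finset ℕ} (hQ : Q ⊆ a.primeFactors)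
    (hc : ∀ p ∈ Q, c ≤ (p : ℝ) ^ (1 / 6 : ℝ)) : c ^ #Q ≤ (a : ℝ) ^ (1 / 6 : ℝ) := by
  calc c ^ #Q = ∏ _p ∈ Q, c := by rw [prod_const]
    _ ≤ ∏ p ∈ Q, (p : ℝ) ^ (1 / 6 : ℝ) := prod_le_prod (fun _ _ => hc0) hc
    _ = ((∏ p ∈ Q, p : ℕ) : ℝ) ^ (1 / 6 : ℝ) := by
        rw [Real.finsetProd_rpow _ _ (fun p _ => Nat.cast_nonneg p)]
        push_cast
        rfl
    _ ≤ (a : ℝ) ^ (1 / 6 : ℝ) := by
        refine Real.rpow_le_rpow (Nat.cast_nonneg _) ?_ (by norm_num)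
        exact_mod_cast prod_le_self ha hQ

/-- the sum over the divisors in the set -/
lemma sum_div_le (hP : ∀ p ∈ P, p.Prime) (hl : 0 ≤ l) (hlP : ∀ p ∈ P, 1 + l ≤ (p : ℝ) ^ (1 / 6 : ℝ))
    {a : ℕ} (ha : 0 < a) : ∑ g ∈ (MM P I).filter (fun g => g ∣ a), ww l g ≤ (a : ℝ) ^ (1 / 6 : ℝ) := by
  classical
  set Q := P ∩ a.primeFactors with hQ
  have h1 : ∑ g ∈ (MM P I).filter (fun g => g ∣ a), ww l g ≤ ∑ S ∈ Q.powerset, l ^ #S := by
    have hinj : Set.InjOn (fun g : ℕ => g.primeFactors) ((MM P I).filter (fun g => g ∣ a) : Finset ℕ) := by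
      intro g hg g' hg' h
      rw [mem_coe, mem_filter, mem_MM hP] at hg hg'
      replace h : g.primeFactors = g'.primeFactors := h
      rw [← Nat.prod_primeFactors_of_squarefree hg.1.1, ← Nat.prod_primeFactors_of_squarefree hg'.1.1, h]
    have h2 : ∑ g ∈ (MM P I).filter (fun g => g ∣ a), ww l g =
        ∑ S ∈ ((MM P I).filter (fun g => g ∣ a)).image (fun g : ℕ => g.primeFactors), l ^ #S := by
      rw [sum_image hinj]
      rfl
    rw [h2]
    refine sum_le_sum_of_subset_of_nonneg ?_ fun _ _ _ => pow_nonneg hl _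
    intro S hS
    obtain ⟨g, hg, rfl⟩ := mem_image.1 hS
    rw [mem_filter, mem_MM hP] at hg
    rw [mem_powerset, hQ]
    exact subset_inter hg.1.2.1 (Nat.primeFactors_mono hg.2 ha.ne')
  have h2 : ∑ S ∈ Q.powerset, l ^ #S = (1 + l) ^ #Q := by
    have := Finset.sum_pow_mul_eq_add_pow l 1 Q
    simp only [one_pow, mul_one] at this
    rw [this, add_comm]
  rw [h2] at h1
  exact h1.trans (pow_card_le (by linarith) ha inter_subset_right
    fun p hp => hlP p (mem_inter.1 hp).1)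

lemma ww_le (hl : 0 ≤ l) (hlP : ∀ p ∈ P, 1 + l ≤ (p : ℝ) ^ (1 / 6 : ℝ))
    {b : ℕ} (hb : 0 < b) (hbP : b.primeFactors ⊆ P) : ww l b ≤ (b : ℝ) ^ (1 / 6 : ℝ) :=
  pow_card_le hl hb (subset_refl _) fun p hp => by
    have := hlP p (hbP hp)
    linarith

/-- the sum over the divisors of a product -/
lemma sum_mul_le (hP : ∀ p ∈ P, p.Prime) (hl : 0 ≤ l) {a m : ℕ} (hm : m ∈ MM P I) :
    ∑ n ∈ (MM P I).filter (fun n => n ∣ m * a), ww l n ≤
      (∑ g ∈ (MM P I).filter (fun g => g ∣ a), ww l g) *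
        ∑ n ∈ (MM P I).filter (fun n => n ∣ m), ww l n := by
  classical
  set X := (MM P I).filter (fun n => n ∣ m * a) with hX
  set φ : ℕ → ℕ × ℕ := fun n => (n.gcd a, n / n.gcd a) with hφ
  have key : ∀ n ∈ X, n.gcd a * (n / n.gcd a) = n ∧ (n.gcd a).Coprime (n / n.gcd a) ∧
      (n / n.gcd a) ∣ m ∧ n ∈ MM P I := by
    intro n hn
    rw [hX, mem_filter] at hn
    obtain ⟨hn1, hn2⟩ := hn
    have h1 : n.gcd a * (n / n.gcd a) = n := Nat.mul_div_cancel' (Nat.gcd_dvd_left _ _)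
    have hsq := ((mem_MM hP).1 hn1).1
    rw [← h1, Nat.squarefree_mul_iff] at hsq
    have hcop : (n / n.gcd a).Coprime a := by
      refine Nat.coprime_of_dvd fun k hk k1 k2 => ?_
      have h2 : k ∣ n.gcd a := Nat.dvd_gcd (k1.trans (Nat.div_dvd_of_dvd (Nat.gcd_dvd_left _ _))) k2
      exact Nat.not_coprime_of_dvd_of_dvd hk.one_lt h2 k1 hsq.1
    exact ⟨h1, hsq.1, hcop.dvd_of_dvd_mul_right
      ((Nat.div_dvd_of_dvd (Nat.gcd_dvd_left _ _)).trans hn2), hn1⟩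
  have hinj : Set.InjOn φ (X : Finset ℕ) := by
    intro n hn n' hn' h
    rw [mem_coe] at hn hn'
    simp only [hφ, Prod.mk.injEq] at h
    have h1 := (key n hn).1
    have h2 := (key n' hn').1
    rw [h.2, h.1] at h1
    rw [← h1, h2]
  have h1 : ∑ n ∈ X, ww l n = ∑ v ∈ X.image φ, ww l v.1 * ww l v.2 := by
    rw [sum_image hinj]
    refine sum_congr rfl fun n hn => ?_
    obtain ⟨k1, k2, _, _⟩ := key n hn
    simp only [hφ]
    rw [← ww_mul k2, k1]
  rw [h1, sum_mul_sum, ← sum_product']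
  refine sum_le_sum_of_subset_of_nonneg ?_ fun v _ _ => mul_nonneg (ww_nonneg hl _) (ww_nonneg hl _)
  intro v hv
  obtain ⟨n, hn, rfl⟩ := mem_image.1 hv
  obtain ⟨k1, k2, k3, k4⟩ := key n hn
  rw [mem_product, mem_filter, mem_filter]
  refine ⟨⟨MM_dvd hP k4 (Nat.gcd_dvd_left _ _), Nat.gcd_dvd_right _ _⟩,
    MM_dvd hP hm k3, k3⟩

/-- the main sum -/
noncomputable def T0 (P : Finset ℕ) (I : ℕ) (l : ℝ) : ℝ :=
  ∑ m ∈ MM P I, ww l m / m * ∑ n ∈ (MM P I).filter (fun n => n ∣ m), ww l n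

/-- the sum of the squares -/
noncomputable def T1 (P : Finset ℕ) (I : ℕ) (l : ℝ) : ℝ := ∑ m ∈ MM P I, ww l m ^ 2 / m

/-- the terms -/
noncomputable def rr (l : ℝ) (n : ℕ) : ℝ := ww l n / √(n : ℝ)

lemma rr_nonneg (hl : 0 ≤ l) (n : ℕ) : 0 ≤ rr l n := div_nonneg (ww_nonneg hl n) (Real.sqrt_nonneg _)

/-- the summands of the main sum -/
noncomputable def F0 (P : Finset ℕ) (I : ℕ) (l : ℝ) (m : ℕ) : ℝ :=
  ww l m / m * ∑ n ∈ (MM P I).filter (fun n => n ∣ m), ww l n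

lemma F0_nonneg (hl : 0 ≤ l) (m : ℕ) : 0 ≤ F0 P I l m :=
  mul_nonneg (div_nonneg (ww_nonneg hl _) (Nat.cast_nonneg _)) (sum_nonneg fun _ _ => ww_nonneg hl _)

lemma T0_nonneg (hl : 0 ≤ l) : 0 ≤ T0 P I l := sum_nonneg fun m _ => F0_nonneg hl m

lemma T1_nonneg : 0 ≤ T1 P I l := sum_nonneg fun m _ => by positivity

lemma rpow_aux {a b : ℝ} (ha : 0 < a) (hb : 0 < b) :
    √b / √a * (b ^ (1 / 6 : ℝ) / b * a ^ (1 / 6 : ℝ)) = (a * b) ^ (-(1 / 3) : ℝ) := by
  have e1 : √b / √a * (b ^ (1 / 6 : ℝ) / b * a ^ (1 / 6 : ℝ)) =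
      (b ^ (1 / 2 : ℝ) * b ^ (1 / 6 : ℝ) * b ^ (-1 : ℝ)) * (a ^ (-(1 / 2) : ℝ) * a ^ (1 / 6 : ℝ)) := by
    rw [Real.sqrt_eq_rpow, Real.sqrt_eq_rpow, Real.rpow_neg ha.le, Real.rpow_neg_one]
    ring
  rw [e1, ← Real.rpow_add hb, ← Real.rpow_add hb, ← Real.rpow_add ha, Real.mul_rpow ha.le hb.le,
    mul_comm]
  congr 1 <;> norm_num

/-- shifted main sums -/
lemma shift_le (hP : ∀ p ∈ P, p.Prime) (hl : 0 ≤ l) (hlP : ∀ p ∈ P, 1 + l ≤ (p : ℝ) ^ (1 / 6 : ℝ))
    {a b : ℕ} (ha : 0 < a) (hb : 0 < b) (hab : a.Coprime b) :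
    ∑ v ∈ (MM P I ×ˢ MM P I).filter (fun v => v.2 * b ∣ v.1 * a),
      (√((v.1 * a : ℝ) / (v.2 * b)))⁻¹ * (rr l v.1 * rr l v.2) ≤
      (a * b : ℝ) ^ (-(1 / 3) : ℝ) * T0 P I l := by
  classical
  have ha0 : (0 : ℝ) < a := by exact_mod_cast ha
  have hb0 : (0 : ℝ) < b := by exact_mod_cast hb
  -- rewriting of the terms
  have e1 : ∀ v ∈ (MM P I ×ˢ MM P I).filter (fun v => v.2 * b ∣ v.1 * a),
      (√((v.1 * a : ℝ) / (v.2 * b)))⁻¹ * (rr l v.1 * rr l v.2) =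
        √b / √a * (ww l v.1 / v.1 * ww l v.2) := by
    intro v hv
    rw [mem_filter, mem_product] at hv
    have h1 : (0 : ℝ) < v.1 := by exact_mod_cast MM_pos hP hv.1.1
    have h2 : (0 : ℝ) < v.2 := by exact_mod_cast MM_pos hP hv.1.2
    unfold rr
    rw [Real.sqrt_div (by positivity), Real.sqrt_mul h1.le, Real.sqrt_mul h2.le]
    have s1 : (v.1 : ℝ) = √(v.1 : ℝ) * √(v.1 : ℝ) := (Real.mul_self_sqrt h1.le).symm
    have s3 : √(v.1 : ℝ) ≠ 0 := (Real.sqrt_pos.2 h1).ne'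
    have s4 : √(v.2 : ℝ) ≠ 0 := (Real.sqrt_pos.2 h2).ne'
    have s5 : √(a : ℝ) ≠ 0 := (Real.sqrt_pos.2 ha0).ne'
    have s6 : √(b : ℝ) ≠ 0 := (Real.sqrt_pos.2 hb0).ne'
    generalize √(v.1 : ℝ) = x at *
    generalize √(v.2 : ℝ) = y at *
    rw [s1]
    field_simp
  rw [sum_congr rfl e1, ← mul_sum]
  set G : ℝ := ∑ g ∈ (MM P I).filter (fun g => g ∣ a), ww l g with hG
  have hG0 : 0 ≤ G := sum_nonneg fun _ _ => ww_nonneg hl _
  have h3 : ∑ v ∈ (MM P I ×ˢ MM P I).filter (fun v => v.2 * b ∣ v.1 * a), ww l v.1 / v.1 * ww l v.2 ≤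
      ∑ m ∈ (MM P I).filter (fun m => b ∣ m), ww l b / b * G * F0 P I l (m / b) := by
    rw [sum_filter, sum_product, sum_filter]
    refine sum_le_sum fun m hm => ?_
    rw [← sum_filter]
    split_ifs with hbm
    · obtain ⟨m', rfl⟩ := hbm
      have hm' := (mem_MM hP).1 hm
      rw [Nat.squarefree_mul_iff] at hm'
      have hcop : b.Coprime m' := hm'.1.1
      have hm0 : m' ≠ 0 := fun h => by
        have := MM_pos hP hm
        simp [h] at this
      have hm0' : (m' : ℝ) ≠ 0 := by exact_mod_cast hm0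
      rw [Nat.mul_div_cancel_left _ hb]
      have h4 : ∑ n ∈ (MM P I).filter (fun n => n * b ∣ b * m' * a), ww l (b * m') / ((b * m' : ℕ) : ℝ) * ww l n ≤
          ww l (b * m') / ((b * m' : ℕ) : ℝ) * (G * ∑ n ∈ (MM P I).filter (fun n => n ∣ m'), ww l n) := by
        rw [← mul_sum]
        refine mul_le_mul_of_nonneg_left ?_ (div_nonneg (ww_nonneg hl _) (Nat.cast_nonneg _))
        have h5 := sum_mul_le (a := a) hP hl (MM_dvd hP hm (Dvd.intro_left b rfl))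
        refine le_trans (le_of_eq ?_) h5
        refine sum_congr (filter_congr fun n _ => ?_) fun _ _ => rfl
        rw [mul_comm n b, mul_assoc b m' a]
        exact Nat.mul_dvd_mul_iff_left hb
      refine h4.trans (le_of_eq ?_)
      unfold F0
      rw [ww_mul hcop]
      push_cast
      field_simp
    · have : (MM P I).filter (fun n => n * b ∣ m * a) = ∅ := by
        rw [filter_eq_empty_iff]
        intro n _ hd
        exact hbm (hab.symm.dvd_of_dvd_mul_right ((Dvd.intro_left n rfl).trans hd))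
      rw [this, sum_empty]
  have h4 : ∑ m ∈ (MM P I).filter (fun m => b ∣ m), F0 P I l (m / b) ≤ T0 P I l := by
    have hinj : Set.InjOn (fun m : ℕ => m / b) ((MM P I).filter (fun m => b ∣ m) : Finset ℕ) := by
      intro m hm m' hm' h
      rw [mem_coe, mem_filter] at hm hm'
      replace h : m / b = m' / b := h
      rw [← Nat.div_mul_cancel hm.2, h, Nat.div_mul_cancel hm'.2]
    rw [← sum_image (f := fun m => F0 P I l m) hinj]
    refine sum_le_sum_of_subset_of_nonneg ?_ fun m _ _ => F0_nonneg hl m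
    intro m hm
    obtain ⟨n, hn, rfl⟩ := mem_image.1 hm
    rw [mem_filter] at hn
    exact MM_dvd hP hn.1 (Nat.div_dvd_of_dvd hn.2)
  rcases ((MM P I).filter (fun m => b ∣ m)).eq_empty_or_nonempty with he | ⟨m, hm⟩
  · rw [he, sum_empty] at h3
    refine (mul_le_mul_of_nonneg_left h3 (by positivity)).trans ?_
    rw [mul_zero]
    exact mul_nonneg (by positivity) (T0_nonneg hl)
  · rw [mem_filter] at hm
    have hbM := (mem_MM hP).1 (MM_dvd hP hm.1 hm.2)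
    have k1 := ww_le hl hlP hb hbM.2.1
    have k2 := sum_div_le (I := I) hP hl hlP ha
    rw [← mul_sum] at h3
    calc √b / √a * ∑ v ∈ (MM P I ×ˢ MM P I).filter (fun v => v.2 * b ∣ v.1 * a),
          ww l v.1 / v.1 * ww l v.2
        ≤ √b / √a * (ww l b / b * G * T0 P I l) := by
          refine mul_le_mul_of_nonneg_left (h3.trans ?_) (by positivity)
          exact mul_le_mul_of_nonneg_left h4 (mul_nonneg (div_nonneg (ww_nonneg hl _) hb0.le) hG0)
      _ = √b / √a * (ww l b / b * G) * T0 P I l := by ring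
      _ ≤ √b / √a * ((b : ℝ) ^ (1 / 6 : ℝ) / b * (a : ℝ) ^ (1 / 6 : ℝ)) * T0 P I l := by
          refine mul_le_mul_of_nonneg_right ?_ (T0_nonneg hl)
          refine mul_le_mul_of_nonneg_left ?_ (by positivity)
          exact mul_le_mul (div_le_div_of_nonneg_right k1 hb0.le) k2 hG0 (by positivity)
      _ = _ := by rw [rpow_aux ha0 hb0]

/-- shifted sums of squares -/
lemma sq_le (hP : ∀ p ∈ P, p.Prime) (hl : 0 ≤ l) (hlP : ∀ p ∈ P, 1 + l ≤ (p : ℝ) ^ (1 / 6 : ℝ))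
    {a b : ℕ} (ha : 0 < a) (hb : 0 < b) (hab : a.Coprime b) :
    ∑ v ∈ (MM P I ×ˢ MM P I).filter (fun v => v.2 * b = v.1 * a), rr l v.1 * rr l v.2 ≤
      (a * b : ℝ) ^ (-(1 / 3) : ℝ) * T1 P I l := by
  classical
  have ha0 : (0 : ℝ) < a := by exact_mod_cast ha
  have hb0 : (0 : ℝ) < b := by exact_mod_cast hb
  set X := (MM P I ×ˢ MM P I).filter (fun v => v.2 * b = v.1 * a) with hX
  have key : ∀ v ∈ X, v.1 / b ∈ MM P I ∧ v.1 = b * (v.1 / b) ∧ v.2 = a * (v.1 / b) ∧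
      rr l v.1 * rr l v.2 ≤ (a * b : ℝ) ^ (-(1 / 3) : ℝ) * (ww l (v.1 / b) ^ 2 / ((v.1 / b : ℕ) : ℝ)) := by
    intro v hv
    rw [hX, mem_filter, mem_product] at hv
    obtain ⟨⟨hv1, hv2⟩, he⟩ := hv
    have hbd : b ∣ v.1 := hab.symm.dvd_of_dvd_mul_right (Dvd.intro_left v.2 he)
    obtain ⟨m, hm⟩ := hbd
    have hm1 : v.1 / b = m := by rw [hm, Nat.mul_div_cancel_left _ hb]
    have h2 : v.2 = a * m := by
      have : v.2 * b = a * m * b := by rw [he, hm]; ring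
      exact Nat.eq_of_mul_eq_mul_right hb this
    have hmM : m ∈ MM P I := MM_dvd hP hv1 (hm ▸ Dvd.intro_left b rfl)
    have hm0 : (0 : ℝ) < m := by exact_mod_cast MM_pos hP hmM
    rw [hm1]
    refine ⟨hmM, hm, h2, ?_⟩
    have c1 : b.Coprime m := by
      have := ((mem_MM hP).1 hv1).1
      rw [hm, Nat.squarefree_mul_iff] at this
      exact this.1
    have c2 : a.Coprime m := by
      have := ((mem_MM hP).1 hv2).1
      rw [h2, Nat.squarefree_mul_iff] at this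
      exact this.1
    have hbM := (mem_MM hP).1 (MM_dvd hP hv1 (hm ▸ Dvd.intro m rfl))
    have haM := (mem_MM hP).1 (MM_dvd hP hv2 (h2 ▸ Dvd.intro m rfl))
    have k1 := ww_le hl hlP hb hbM.2.1
    have k2 := ww_le hl hlP ha haM.2.1
    have e1 : rr l v.1 * rr l v.2 = √b / √a * (ww l b / b * ww l a) * (ww l m ^ 2 / m) := by
      unfold rr
      rw [hm, h2, ww_mul c1, ww_mul c2]
      push_cast
      rw [Real.sqrt_mul hb0.le, Real.sqrt_mul ha0.le]
      have s1 : (m : ℝ) = √(m : ℝ) * √(m : ℝ) := (Real.mul_self_sqrt hm0.le).symm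
      have s2 : (b : ℝ) = √(b : ℝ) * √(b : ℝ) := (Real.mul_self_sqrt hb0.le).symm
      have s3 : √(m : ℝ) ≠ 0 := (Real.sqrt_pos.2 hm0).ne'
      have s5 : √(a : ℝ) ≠ 0 := (Real.sqrt_pos.2 ha0).ne'
      have s6 : √(b : ℝ) ≠ 0 := (Real.sqrt_pos.2 hb0).ne'
      generalize √(m : ℝ) = x at *
      generalize √(b : ℝ) = y at *
      rw [s1, s2]
      field_simp
    rw [e1, ← rpow_aux ha0 hb0]
    refine mul_le_mul_of_nonneg_right ?_ (by positivity)
    refine mul_le_mul_of_nonneg_left ?_ (by positivity)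
    exact mul_le_mul (div_le_div_of_nonneg_right k1 hb0.le) k2 (ww_nonneg hl _) (by positivity)
  refine (sum_le_sum fun v hv => (key v hv).2.2.2).trans ?_
  rw [← mul_sum]
  refine mul_le_mul_of_nonneg_left ?_ (by positivity)
  have hinj : Set.InjOn (fun v : ℕ × ℕ => v.1 / b) (X : Finset (ℕ × ℕ)) := by
    intro v hv v' hv' h
    rw [mem_coe] at hv hv'
    obtain ⟨_, a2, a3, _⟩ := key v hv
    obtain ⟨_, b2, b3, _⟩ := key v' hv'
    replace h : v.1 / b = v'.1 / b := h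
    rw [h] at a2 a3
    exact Prod.ext (a2.trans b2.symm) (a3.trans b3.symm)
  rw [← sum_image (f := fun m => ww l m ^ 2 / (m : ℝ)) hinj]
  refine sum_le_sum_of_subset_of_nonneg ?_ fun m _ _ => by positivity
  intro m hm
  obtain ⟨v, hv, rfl⟩ := mem_image.1 hm
  exact (key v hv).1

end Pool.Agent.Q28.CS
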