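import Pool.Agent.Q28.CS.Excl

/-!
# Sums over a coset of characters
-/

set_option autoImplicit false
set_option linter.unusedSectionVars false

namespace Pool.Agent.Q28.CS

open Finset ComplexConjugate

variable {q : ℕ} [NeZero q]

/-- the orthogonal group of a group of characters -/
def orth (H : Subgroup (DirichletCharacter ℂ q)) : Subgroup (ZMod q)ˣ where
  carrier := {x | ∀ η ∈ H, η (x : ZMod q) = 1}
  one_mem' := fun η _ => by simp
  mul_mem' := fun {x y} hx hy η hη => by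
    rw [Units.val_mul, map_mul, hx η hη, hy η hη, one_mul]
  inv_mem' := fun {x} hx η hη => by
    have h1 : η ((x⁻¹ : (ZMod q)ˣ) : ZMod q) * η (x : ZMod q) = 1 := by
      rw [← map_mul, ← Units.val_mul, inv_mul_cancel, Units.val_one, map_one]
    rw [hx η hη, mul_one] at h1
    exact h1

lemma mem_orth {H : Subgroup (DirichletCharacter ℂ q)} {x : (ZMod q)ˣ} :
    x ∈ orth H ↔ ∀ η ∈ H, η (x : ZMod q) = 1 := Iff.rfl

/-- the sum over the subgroup -/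
lemma sum_sub {H : Subgroup (DirichletCharacter ℂ q)} {𝓗 : Finset (DirichletCharacter ℂ q)}
    (h : ∀ χ, χ ∈ 𝓗 ↔ χ ∈ H) (x : (ZMod q)ˣ) :
    (x ∈ orth H → ∑ χ ∈ 𝓗, χ (x : ZMod q) = #𝓗) ∧ (x ∉ orth H → ∑ χ ∈ 𝓗, χ (x : ZMod q) = 0) := by
  constructor
  · intro hx
    rw [sum_congr rfl (fun χ hχ => hx χ ((h χ).1 hχ))]
    simp
  · intro hx
    rw [mem_orth] at hx
    push Not at hx
    obtain ⟨ψ, h0, h1⟩ := hx
    have h2 : ∑ χ ∈ 𝓗, (ψ * χ) (x : ZMod q) = ∑ χ ∈ 𝓗, χ (x : ZMod q) := by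
      refine sum_equiv (Equiv.mulLeft ψ) ?_ ?_
      · intro χ
        rw [h, h, Equiv.coe_mulLeft]
        exact (Subgroup.mul_mem_cancel_left H h0).symm
      · intro χ _
        rfl
    have h3 : ∑ χ ∈ 𝓗, (ψ * χ) (x : ZMod q) = ψ (x : ZMod q) * ∑ χ ∈ 𝓗, χ (x : ZMod q) := by
      rw [mul_sum]
      refine sum_congr rfl fun χ _ => ?_
      rw [MulChar.mul_apply]
    rw [h3] at h2
    have h4 : (ψ (x : ZMod q) - 1) * ∑ χ ∈ 𝓗, χ (x : ZMod q) = 0 := by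
      rw [sub_mul, h2]
      ring
    rcases mul_eq_zero.1 h4 with h5 | h5
    · exact absurd (sub_eq_zero.1 h5) h1
    · exact h5

/-- the order of the orthogonal group -/
lemma card_orth {H : Subgroup (DirichletCharacter ℂ q)} {𝓗 : Finset (DirichletCharacter ℂ q)}
    (h : ∀ χ, χ ∈ 𝓗 ↔ χ ∈ H) : #𝓗 * Nat.card (orth H) = q.totient := by
  classical
  have h1 : ∀ η ∈ 𝓗, ∑ x : (ZMod q)ˣ, η (x : ZMod q) = if η = 1 then (q.totient : ℂ) else 0 := by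
    intro η _
    have e1 : ∑ x : (ZMod q)ˣ, η (x : ZMod q) = ∑ a : ZMod q, η a := by
      have hinj : Set.InjOn (fun a : (ZMod q)ˣ => (a : ZMod q)) (univ : Finset (ZMod q)ˣ) :=
        fun a _ b _ h => Units.ext h
      rw [← sum_image (f := fun a : ZMod q => η a) hinj]
      refine sum_subset (subset_univ _) fun a _ ha => ?_
      refine η.map_nonunit fun hu => ha ?_
      obtain ⟨u, hu⟩ := hu
      exact mem_image.2 ⟨u, mem_univ _, hu⟩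
    rw [e1]
    split_ifs with h2
    · rw [h2, MulChar.sum_one_eq_card_units, ZMod.card_units_eq_totient]
    · exact MulChar.sum_eq_zero_of_ne_one h2
  have h2 : ∑ x : (ZMod q)ˣ, ∑ η ∈ 𝓗, η (x : ZMod q) = q.totient := by
    rw [sum_comm, sum_congr rfl h1, sum_ite_eq' 𝓗 1, if_pos ((h 1).2 H.one_mem)]
  have h3 : ∑ x : (ZMod q)ˣ, ∑ η ∈ 𝓗, η (x : ZMod q) =
      ∑ x : (ZMod q)ˣ, if x ∈ orth H then (#𝓗 : ℂ) else 0 := by
    refine sum_congr rfl fun x _ => ?_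
    split_ifs with hx
    · exact (sum_sub h x).1 hx
    · exact (sum_sub h x).2 hx
  rw [h3, ← sum_filter, sum_const, nsmul_eq_mul] at h2
  have h4 : Nat.card (orth H) = #((univ : Finset (ZMod q)ˣ).filter fun x => x ∈ orth H) := by
    rw [Nat.card_eq_fintype_card, Fintype.card_subtype]
  rw [h4, mul_comm]
  exact_mod_cast h2

/-- the sum over the coset -/
lemma sum_coset {H : Subgroup (DirichletCharacter ℂ q)} {𝓗 𝓕 : Finset (DirichletCharacter ℂ q)}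
    {ψ : DirichletCharacter ℂ q} (h : ∀ χ, χ ∈ 𝓗 ↔ χ ∈ H) (hF : ∀ χ, χ ∈ 𝓕 ↔ ψ⁻¹ * χ ∈ H)
    (x : (ZMod q)ˣ) : ∑ χ ∈ 𝓕, χ (x : ZMod q) = ψ (x : ZMod q) * ∑ χ ∈ 𝓗, χ (x : ZMod q) := by
  rw [mul_sum]
  refine (sum_equiv (Equiv.mulLeft ψ) ?_ ?_).symm
  · intro χ
    rw [h, hF, Equiv.coe_mulLeft, inv_mul_cancel_left]
  · intro χ _
    rw [Equiv.coe_mulLeft, MulChar.mul_apply]

lemma card_coset {H : Subgroup (DirichletCharacter ℂ q)} {𝓗 𝓕 : Finset (DirichletCharacter ℂ q)}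
    {ψ : DirichletCharacter ℂ q} (h : ∀ χ, χ ∈ 𝓗 ↔ χ ∈ H) (hF : ∀ χ, χ ∈ 𝓕 ↔ ψ⁻¹ * χ ∈ H) :
    #𝓕 = #𝓗 := by
  refine (card_equiv (Equiv.mulLeft ψ) ?_).symm
  intro χ
  rw [h, hF, Equiv.coe_mulLeft, inv_mul_cancel_left]

/-- the sum of `χ(k) χ(n) conj χ(m)` -/
lemma sum_three {H : Subgroup (DirichletCharacter ℂ q)} {𝓗 𝓕 : Finset (DirichletCharacter ℂ q)}
    {ψ : DirichletCharacter ℂ q} (h : ∀ χ, χ ∈ 𝓗 ↔ χ ∈ H) (hF : ∀ χ, χ ∈ 𝓕 ↔ ψ⁻¹ * χ ∈ H)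
    {a b : ℕ} (ha : a.Coprime q) (hb : b.Coprime q) :
    ‖∑ χ ∈ 𝓕, χ ((a : ℕ) : ZMod q) * conj (χ ((b : ℕ) : ZMod q))‖ ≤ #𝓗 ∧
    (¬ Rel (orth H) a b → ∑ χ ∈ 𝓕, χ ((a : ℕ) : ZMod q) * conj (χ ((b : ℕ) : ZMod q)) = 0) := by
  set u := ZMod.unitOfCoprime a ha with hu
  set v := ZMod.unitOfCoprime b hb with hv
  have e1 : ∀ χ : DirichletCharacter ℂ q, χ ((a : ℕ) : ZMod q) * conj (χ ((b : ℕ) : ZMod q)) =
      χ ((u * v⁻¹ : (ZMod q)ˣ) : ZMod q) := by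
    intro χ
    have h2 : conj (χ ((b : ℕ) : ZMod q)) = χ ((v⁻¹ : (ZMod q)ˣ) : ZMod q) := by
      rw [← ZMod.coe_unitOfCoprime b hb, ← hv]
      have h1 : χ ((v⁻¹ : (ZMod q)ˣ) : ZMod q) * χ (v : ZMod q) = 1 := by
        rw [← map_mul, ← Units.val_mul, inv_mul_cancel, Units.val_one, map_one]
      have h2 : ‖χ (v : ZMod q)‖ = 1 := DirichletCharacter.unit_norm_eq_one χ v
      have h3 : conj (χ (v : ZMod q)) * χ (v : ZMod q) = 1 := by
        rw [← Complex.normSq_eq_conj_mul_self, Complex.normSq_eq_norm_sq, h2]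
        norm_num
      have h4 : χ (v : ZMod q) ≠ 0 := by
        intro h
        rw [h, norm_zero] at h2
        exact zero_ne_one h2
      exact mul_right_cancel₀ h4 (h3.trans h1.symm)
    rw [h2, Units.val_mul, map_mul, hu, ZMod.coe_unitOfCoprime]
  rw [sum_congr rfl fun χ _ => e1 χ]
  constructor
  · refine (norm_sum_le _ _).trans ?_
    refine (sum_le_sum fun χ _ => (χ.norm_le_one _)).trans (le_of_eq ?_)
    rw [sum_const, nsmul_eq_mul, mul_one, card_coset h hF]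
  · intro hrel
    rw [sum_coset h hF, (sum_sub h _).2, mul_zero]
    intro hmem
    apply hrel
    refine ⟨u * v⁻¹, hmem, ?_⟩
    rw [← ZMod.coe_unitOfCoprime a ha, ← ZMod.coe_unitOfCoprime b hb, ← hu, ← hv, ← Units.val_mul,
      inv_mul_cancel_right]

lemma sum_diag {𝓕 : Finset (DirichletCharacter ℂ q)} {a : ℕ} (ha : a.Coprime q) :
    ∑ χ ∈ 𝓕, χ ((a : ℕ) : ZMod q) * conj (χ ((a : ℕ) : ZMod q)) = #𝓕 := by
  have : ∀ χ ∈ 𝓕, χ ((a : ℕ) : ZMod q) * conj (χ ((a : ℕ) : ZMod q)) = 1 := by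
    intro χ _
    have h2 : ‖χ ((a : ℕ) : ZMod q)‖ = 1 := by
      rw [← ZMod.coe_unitOfCoprime a ha]
      exact DirichletCharacter.unit_norm_eq_one χ _
    rw [Complex.mul_conj, Complex.normSq_eq_norm_sq, h2]
    norm_num
  rw [sum_congr rfl this]
  simp

end Pool.Agent.Q28.CS
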