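import Pool.Agent.Q28.CS.Coset
import Pool.Agent.TH487.RP.PV
import Pool.Agent.Y766.R8.AV

/-!
# The central value without the primes of a small number `E`
-/

set_option autoImplicit false
set_option linter.unusedSectionVars false

namespace Pool.Agent.Q28.CS

open Finset ComplexConjugate

variable {q : ℕ} [NeZero q]

/-- the partial sums over the numbers without prime divisors in `s` -/
noncomputable def SE (s : Finset ℕ) (χ : DirichletCharacter ℂ q) (x : ℕ) : ℂ :=
  ∑ n ∈ (Icc 1 x).filter (fun n => ∀ p ∈ s, ¬ p ∣ n), χ ((n : ℕ) : ZMod q)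

lemma SE_insert {s : Finset ℕ} (hs : ∀ p ∈ s, p.Prime) {p : ℕ} (hp : p.Prime) (hps : p ∉ s)
    (χ : DirichletCharacter ℂ q) (x : ℕ) :
    SE (insert p s) χ x = SE s χ x - χ ((p : ℕ) : ZMod q) * SE s χ (x / p) := by
  classical
  have h1 : SE s χ x = SE (insert p s) χ x +
      ∑ n ∈ (Icc 1 x).filter (fun n => (∀ r ∈ s, ¬ r ∣ n) ∧ p ∣ n), χ ((n : ℕ) : ZMod q) := by
    unfold SE
    rw [← sum_filter_add_sum_filter_not ((Icc 1 x).filter (fun n => ∀ r ∈ s, ¬ r ∣ n)) (fun n => ¬ p ∣ n),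
      filter_filter, filter_filter]
    congr 1
    · refine sum_congr (filter_congr fun n _ => ?_) fun _ _ => rfl
      rw [forall_mem_insert]
      tauto
    · refine sum_congr (filter_congr fun n _ => ?_) fun _ _ => rfl
      tauto
  have h2 : ∑ n ∈ (Icc 1 x).filter (fun n => (∀ r ∈ s, ¬ r ∣ n) ∧ p ∣ n), χ ((n : ℕ) : ZMod q) =
      χ ((p : ℕ) : ZMod q) * SE s χ (x / p) := by
    unfold SE
    rw [mul_sum]
    symm
    refine sum_bij' (fun m _ => p * m) (fun n _ => n / p) ?_ ?_ ?_ ?_ ?_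
    · intro m hm
      obtain ⟨hm1, hm2⟩ := mem_filter.1 hm
      rw [mem_Icc] at hm1
      rw [mem_filter, mem_Icc]
      refine ⟨⟨Nat.mul_pos hp.pos hm1.1, ?_⟩, fun r hr hd => ?_, Dvd.intro _ rfl⟩
      · calc p * m ≤ p * (x / p) := Nat.mul_le_mul_left _ hm1.2
          _ ≤ x := Nat.mul_div_le _ _
      · rcases (hs r hr).dvd_mul.1 hd with h | h
        · exact hps (((Nat.prime_dvd_prime_iff_eq (hs r hr) hp).1 h) ▸ hr)
        · exact hm2 r hr h
    · intro n hn
      obtain ⟨hn1, hn2, hn3⟩ := mem_filter.1 hn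
      rw [mem_Icc] at hn1
      obtain ⟨m, rfl⟩ := hn3
      rw [Nat.mul_div_cancel_left _ hp.pos, mem_filter, mem_Icc]
      refine ⟨⟨Nat.pos_of_ne_zero fun h => by simp [h] at hn1, ?_⟩, fun r hr hd => hn2 r hr (hd.mul_left _)⟩
      rw [Nat.le_div_iff_mul_le hp.pos, mul_comm]
      exact hn1.2
    · intro m _
      exact Nat.mul_div_cancel_left _ hp.pos
    · intro n hn
      obtain ⟨_, _, hn3⟩ := mem_filter.1 hn
      exact Nat.mul_div_cancel' hn3
    · intro m _
      push_cast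
      rw [map_mul]
  rw [h1, h2]
  ring

lemma SE_le {B : ℝ} {χ : DirichletCharacter ℂ q} (h0 : ∀ x, ‖SE ∅ χ x‖ ≤ B) (s : Finset ℕ) :
    (∀ p ∈ s, p.Prime) → ∀ x, ‖SE s χ x‖ ≤ 2 ^ #s * B := by
  classical
  induction s using Finset.induction_on with
  | empty => intro _ x; simpa using h0 x
  | insert p s hps ih =>
    intro hs x
    have hs' : ∀ r ∈ s, r.Prime := fun r hr => hs r (mem_insert_of_mem hr)
    rw [SE_insert hs' (hs p (mem_insert_self _ _)) hps, card_insert_of_notMem hps]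
    refine (norm_sub_le _ _).trans ?_
    have h1 := ih hs' x
    have h2 := ih hs' (x / p)
    have h3 : ‖χ ((p : ℕ) : ZMod q) * SE s χ (x / p)‖ ≤ ‖SE s χ (x / p)‖ := by
      rw [norm_mul]
      exact mul_le_of_le_one_left (norm_nonneg _) (χ.norm_le_one _)
    rw [pow_succ]
    linarith

lemma coprime_iff_filter {E n : ℕ} (hE : E ≠ 0) : n.Coprime E ↔ ∀ p ∈ E.primeFactors, ¬ p ∣ n := by
  constructor
  · intro h p hp hd
    exact Nat.not_coprime_of_dvd_of_dvd (Nat.prime_of_mem_primeFactors hp).one_lt hd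
      (Nat.dvd_of_mem_primeFactors hp) h
  · intro h
    refine Nat.coprime_of_dvd fun k hk h1 h2 => h k (Nat.mem_primeFactors.2 ⟨hk, h2, hE⟩) h1

/-- the character modulo `q E` -/
lemma level_apply {E : ℕ} (hE : E ≠ 0) [NeZero (q * E)] (χ : DirichletCharacter ℂ q) (n : ℕ) :
    DirichletCharacter.changeLevel (Dvd.intro E rfl : q ∣ q * E) χ ((n : ℕ) : ZMod (q * E)) =
      if n.Coprime E then χ ((n : ℕ) : ZMod q) else 0 := by
  by_cases h : n.Coprime (q * E)
  · rw [if_pos (Nat.Coprime.coprime_mul_left_right h), ← ZMod.coe_unitOfCoprime n h,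
      DirichletCharacter.changeLevel_eq_cast_of_dvd, ZMod.coe_unitOfCoprime]
    congr 1
    exact ZMod.cast_natCast (Dvd.intro E rfl : q ∣ q * E) n
  · rw [MulChar.map_nonunit _ (by rwa [ZMod.isUnit_iff_coprime])]
    split_ifs with h2
    · rw [MulChar.map_nonunit χ]
      rw [ZMod.isUnit_iff_coprime]
      intro h3
      exact h (Nat.Coprime.mul_right h3 h2)
    · rfl

/-- the truncated series without the primes of `E` -/
noncomputable def LE (E N : ℕ) (χ : DirichletCharacter ℂ q) : ℂ :=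
  ∑ n ∈ (Icc 1 N).filter (fun n => n.Coprime E), (((√(n : ℝ))⁻¹ : ℝ) : ℂ) * χ ((n : ℕ) : ZMod q)

theorem LE_le (hq : q.Prime) (hq2 : q ≠ 2) {χ : DirichletCharacter ℂ q} (hχ : χ ≠ 1) {E N : ℕ}
    (hE : E ≠ 0) (hN1 : 1 ≤ N) (hN : 4 * 4 ^ #E.primeFactors * q * Real.log q ^ 2 ≤ N) :
    ‖LE E N χ‖ ≤ ‖χ.LFunction (1 / 2)‖ * Real.exp (∑ p ∈ E.primeFactors, (√(p : ℝ))⁻¹) + 1 := by
  classical
  haveI : Fact q.Prime := ⟨hq⟩
  haveI : NeZero (q * E) := ⟨Nat.mul_ne_zero hq.ne_zero hE⟩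
  have hq0 : (0 : ℝ) < q := by exact_mod_cast hq.pos
  have hlog : 0 ≤ Real.log q := Real.log_nonneg (by exact_mod_cast hq.one_lt.le)
  have hN0 : (0 : ℝ) < N := by exact_mod_cast hN1
  set B : ℝ := √q * Real.log q with hB
  have hB0 : 0 ≤ B := by positivity
  set m := #E.primeFactors with hm
  -- the partial sums
  have h0 : ∀ x, ‖SE ∅ χ x‖ ≤ B := by
    intro x
    have h1 := Pool.Agent.TH487.RP.polya_vinogradov q hq2 χ hχ (x + 1)
    have h2 : SE ∅ χ x = ∑ n ∈ range (x + 1), χ ((n : ℕ) : ZMod q) := by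
      unfold SE
      rw [filter_true_of_mem (by simp), Finset.range_eq_Ico, ← sum_sdiff (s₁ := Icc 1 x) (s₂ := Ico 0 (x + 1))]
      · have h3 : Ico 0 (x + 1) \ Icc 1 x = {0} := by
          ext n
          simp only [mem_sdiff, mem_Ico, mem_Icc, mem_singleton]
          omega
        have h4 : χ (((0 : ℕ) : ℕ) : ZMod q) = 0 := by
          rw [Nat.cast_zero]
          exact MulChar.map_zero χ
        rw [h3, sum_singleton, h4, zero_add]
      · intro n hn
        rw [mem_Icc] at hn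
        rw [mem_Ico]
        omega
    rw [h2]
    exact h1
  set χ' := DirichletCharacter.changeLevel (Dvd.intro E rfl : q ∣ q * E) χ with hχ'
  have hne : χ' ≠ 1 := fun h => hχ ((DirichletCharacter.changeLevel_eq_one_iff _).1 h)
  have hsum : ∀ x : ℕ, ∑ n ∈ Icc 1 x, χ' ((n : ℕ) : ZMod (q * E)) = SE E.primeFactors χ x := by
    intro x
    unfold SE
    rw [sum_filter]
    refine sum_congr rfl fun n _ => ?_
    rw [hχ', level_apply hE]
    by_cases h : n.Coprime E
    · rw [if_pos h, if_pos ((coprime_iff_filter hE).1 h)]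
    · rw [if_neg h, if_neg fun h' => h ((coprime_iff_filter hE).2 h')]
  have hbd : ∀ x : ℕ, ‖∑ k ∈ Ioc N x, ∑ i ∈ ({()} : Finset Unit), (1 : ℂ) * χ' (k : ZMod (q * E))‖ ≤
      2 * (2 ^ m * B) := by
    intro x
    simp only [sum_const, card_singleton, one_smul, one_mul]
    rcases le_or_gt x N with h | h
    · rw [Ioc_eq_empty_of_le h, sum_empty, norm_zero]
      positivity
    · have h1 : ∑ k ∈ Ioc N x, χ' ((k : ℕ) : ZMod (q * E)) =
          SE E.primeFactors χ x - SE E.primeFactors χ N := by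
        rw [← hsum, ← hsum, eq_sub_iff_add_eq, add_comm, ← sum_union]
        · refine sum_congr ?_ fun _ _ => rfl
          ext k
          simp only [mem_union, mem_Icc, mem_Ioc]
          omega
        · rw [disjoint_left]
          intro k hk1 hk2
          rw [mem_Icc] at hk1
          rw [mem_Ioc] at hk2
          omega
      rw [h1]
      refine (norm_sub_le _ _).trans ?_
      have h3 := SE_le h0 E.primeFactors (fun p hp => Nat.prime_of_mem_primeFactors hp) x
      have h4 := SE_le h0 E.primeFactors (fun p hp => Nat.prime_of_mem_primeFactors hp) N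
      linarith
  have h := Pool.Agent.Y766.R8.avg ({()} : Finset Unit) (fun _ => χ') (fun _ => 1) (N := N)
    (B := 2 * (2 ^ m * B)) (s := 1 / 2) (fun _ _ => hne) hN1 (by norm_num) hbd
  simp only [sum_singleton, one_mul] at h
  have e1 : ∑ n ∈ Icc 1 N, χ' (n : ZMod (q * E)) * (n : ℂ) ^ (-(1 / 2) : ℂ) = LE E N χ := by
    unfold LE
    rw [sum_filter]
    refine sum_congr rfl fun n hn => ?_
    rw [hχ', level_apply hE]
    by_cases hc : n.Coprime E
    · rw [if_pos hc, if_pos hc, mul_comm]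
      congr 1
      have hn0 : (0 : ℝ) ≤ n := Nat.cast_nonneg n
      rw [Real.sqrt_eq_rpow, ← Real.rpow_neg hn0, Complex.ofReal_cpow hn0]
      push_cast
      rfl
    · rw [if_neg hc, if_neg hc, zero_mul]
  rw [e1] at h
  have e2 : ‖(1 / 2 : ℂ)‖ = 1 / 2 := by norm_num
  have e3 : (1 / 2 : ℂ).re = 1 / 2 := by norm_num
  have h5 : 2 * (2 ^ m * B) ≤ √N := by
    refine Real.le_sqrt_of_sq_le (le_trans (le_of_eq ?_) hN)
    rw [hB, mul_pow, mul_pow, mul_pow, Real.sq_sqrt hq0.le, ← pow_mul, mul_comm m 2, pow_mul]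
    norm_num
    ring
  have h6 : 0 < √(N : ℝ) := Real.sqrt_pos.2 hN0
  have h7 : ‖χ'.LFunction (1 / 2) - LE E N χ‖ ≤ 1 := by
    refine h.trans ?_
    rw [e2, e3, Real.rpow_neg hN0.le, ← Real.sqrt_eq_rpow]
    have h8 : 2 * (2 ^ m * B) * (√(N : ℝ))⁻¹ ≤ 1 := by
      rw [← div_eq_mul_inv, div_le_one h6]
      exact h5
    calc 1 / 2 * (2 * (2 ^ m * B) * ((√(N : ℝ))⁻¹ / (1 / 2)))
        = 2 * (2 ^ m * B) * (√(N : ℝ))⁻¹ := by ring
      _ ≤ 1 := h8
  -- the Euler factors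
  have h8 : ‖χ'.LFunction (1 / 2)‖ ≤
      ‖χ.LFunction (1 / 2)‖ * Real.exp (∑ p ∈ E.primeFactors, (√(p : ℝ))⁻¹) := by
    rw [hχ', DirichletCharacter.LFunction_changeLevel _ χ (Or.inl hχ), norm_mul]
    refine mul_le_mul_of_nonneg_left ?_ (norm_nonneg _)
    rw [norm_prod, Nat.primeFactors_mul hq.ne_zero hE, hq.primeFactors, union_comm]
    have h9 : ∀ p : ℕ, p.Prime → ‖1 - χ ((p : ℕ) : ZMod q) * (p : ℂ) ^ (-(1 / 2) : ℂ)‖ ≤
        Real.exp ((√(p : ℝ))⁻¹) := by
      intro p hp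
      have hp0 : (0 : ℝ) ≤ p := Nat.cast_nonneg p
      have e5 : (p : ℂ) ^ (-(1 / 2) : ℂ) = (((√(p : ℝ))⁻¹ : ℝ) : ℂ) := by
        rw [Real.sqrt_eq_rpow, ← Real.rpow_neg hp0, Complex.ofReal_cpow hp0]
        push_cast
        rfl
      rw [e5]
      have h10 : ‖χ ((p : ℕ) : ZMod q) * (((√(p : ℝ))⁻¹ : ℝ) : ℂ)‖ ≤ (√(p : ℝ))⁻¹ := by
        rw [norm_mul, Complex.norm_real, Real.norm_of_nonneg (by positivity)]
        exact mul_le_of_le_one_left (by positivity) (χ.norm_le_one _)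
      have h11 := Real.add_one_le_exp ((√(p : ℝ))⁻¹)
      have h12 := norm_sub_le (1 : ℂ) (χ ((p : ℕ) : ZMod q) * (((√(p : ℝ))⁻¹ : ℝ) : ℂ))
      rw [norm_one] at h12
      linarith
    have h13 : ‖1 - χ ((q : ℕ) : ZMod q) * (q : ℂ) ^ (-(1 / 2) : ℂ)‖ = 1 := by
      rw [ZMod.natCast_self, MulChar.map_zero, zero_mul, sub_zero, norm_one]
    by_cases hqE : q ∈ E.primeFactors
    · rw [union_eq_left.2 (singleton_subset_iff.2 hqE), Real.exp_sum]
      exact prod_le_prod (fun _ _ => norm_nonneg _) fun p hp => h9 p (Nat.prime_of_mem_primeFactors hp)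
    · rw [prod_union (by rw [disjoint_singleton_right]; exact hqE), prod_singleton, h13, mul_one,
        Real.exp_sum]
      exact prod_le_prod (fun _ _ => norm_nonneg _) fun p hp => h9 p (Nat.prime_of_mem_primeFactors hp)
  have h9 : ‖LE E N χ‖ ≤ ‖χ'.LFunction (1 / 2)‖ + ‖χ'.LFunction (1 / 2) - LE E N χ‖ := by
    have := norm_sub_le (χ'.LFunction (1 / 2)) (χ'.LFunction (1 / 2) - LE E N χ)
    rwa [sub_sub_cancel] at this
  linarith

end Pool.Agent.Q28.CS
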