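import Pool.Agent.Q28.CS.Core2
import Pool.Agent.Q28.CS.DL

/-!
# The resonance inequality in a coset
-/

set_option autoImplicit false
set_option linter.unusedSectionVars false

namespace Pool.Agent.Q28.CS

open Finset ComplexConjugate

lemma sum_inv_sqrt (N : ℕ) : ∑ n ∈ Icc 1 N, (√(n : ℝ))⁻¹ ≤ 2 * √N := by
  induction N with
  | zero => simp
  | succ N ih =>
    rw [sum_Icc_succ_top (by omega)]
    have h1 : (0 : ℝ) < ((N + 1 : ℕ) : ℝ) := by positivity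
    have h2 : 0 < √((N + 1 : ℕ) : ℝ) := Real.sqrt_pos.2 h1
    have h3 : (√((N + 1 : ℕ) : ℝ))⁻¹ ≤ 2 * √((N + 1 : ℕ) : ℝ) - 2 * √(N : ℝ) := by
      rw [inv_le_iff_one_le_mul₀ h2]
      have h4 : √((N + 1 : ℕ) : ℝ) ^ 2 = N + 1 := by
        rw [Real.sq_sqrt h1.le]
        push_cast
        ring
      have h5 : √(N : ℝ) ^ 2 = N := Real.sq_sqrt (Nat.cast_nonneg N)
      nlinarith [sq_nonneg (√((N + 1 : ℕ) : ℝ) - √(N : ℝ))]
    linarith

variable {q : ℕ} [NeZero q]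

/-- the large `k` with a relation -/
lemma tail_le {G : Subgroup (ZMod q)ˣ} {K N m n : ℕ} (hK : 1 ≤ K) (hn : n.Coprime q) (X : Finset ℕ)
    (hX : ∀ k ∈ X, (K < k ∧ k ≤ N) ∧ Rel G (k * n) m) :
    ∑ k ∈ X, (√(k : ℝ))⁻¹ ≤ Nat.card G * ((√(K : ℝ))⁻¹ + 2 * √N / q) := by
  classical
  have hq0 : 0 < q := Nat.pos_of_ne_zero (NeZero.ne q)
  have hq0' : (0 : ℝ) < q := by exact_mod_cast hq0
  have hK0 : (0 : ℝ) < K := by exact_mod_cast hK
  have hex : ∀ k : ℕ, ∃ g : G, k ∈ X → ((k * n : ℕ) : ZMod q) = ((g : (ZMod q)ˣ) : ZMod q) * ((m : ℕ) : ZMod q) := by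
    intro k
    by_cases hk : k ∈ X
    · obtain ⟨g, hg, e⟩ := (hX k hk).2
      exact ⟨⟨g, hg⟩, fun _ => e⟩
    · exact ⟨1, fun h => absurd h hk⟩
  choose γ hγ using hex
  set F : ℕ → ℝ := fun j => if j = 0 then (√(K : ℝ))⁻¹ else (√(j : ℝ))⁻¹ * (√(q : ℝ))⁻¹ with hF
  have hF0 : ∀ j, 0 ≤ F j := by
    intro j
    simp only [hF]
    split_ifs <;> positivity
  set φ : ℕ → G × ℕ := fun k => (γ k, k / q) with hφ
  have hinj : Set.InjOn φ (X : Finset ℕ) := by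
    intro k hk k' hk' h
    rw [mem_coe] at hk hk'
    simp only [hφ, Prod.mk.injEq] at h
    have e1 := hγ k hk
    have e2 := hγ k' hk'
    rw [← h.1, ← e1] at e2
    push_cast at e2
    have hu : IsUnit ((n : ℕ) : ZMod q) := (ZMod.isUnit_iff_coprime n q).2 hn
    have e3 : ((k' : ℕ) : ZMod q) = ((k : ℕ) : ZMod q) := hu.mul_right_cancel e2
    rw [ZMod.natCast_eq_natCast_iff] at e3
    have e4 : k' % q = k % q := e3
    rw [← Nat.div_add_mod k q, ← Nat.div_add_mod k' q, h.2, e4]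
  have h1 : ∀ k ∈ X, (√(k : ℝ))⁻¹ ≤ F (k / q) := by
    intro k hk
    have hkK : (K : ℝ) ≤ k := by exact_mod_cast (hX k hk).1.1.le
    simp only [hF]
    split_ifs with hj
    · exact inv_anti₀ (Real.sqrt_pos.2 hK0) (Real.sqrt_le_sqrt hkK)
    · have h2 : (0 : ℝ) < ((k / q : ℕ) : ℝ) := by exact_mod_cast Nat.pos_of_ne_zero hj
      rw [← mul_inv, ← Real.sqrt_mul h2.le]
      refine inv_anti₀ (Real.sqrt_pos.2 (by positivity)) (Real.sqrt_le_sqrt ?_)
      exact_mod_cast Nat.div_mul_le_self k q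
  refine (sum_le_sum h1).trans ?_
  have h2 : ∑ k ∈ X, F (k / q) = ∑ v ∈ X.image φ, F v.2 := by
    rw [sum_image hinj]
  rw [h2]
  have h3 : ∑ v ∈ X.image φ, F v.2 ≤ ∑ v ∈ (univ : Finset G) ×ˢ range (N / q + 1), F v.2 := by
    refine sum_le_sum_of_subset_of_nonneg ?_ fun v _ _ => hF0 _
    intro v hv
    obtain ⟨k, hk, rfl⟩ := mem_image.1 hv
    rw [mem_product, mem_range]
    exact ⟨mem_univ _, Nat.lt_succ_of_le (Nat.div_le_div_right (hX k hk).1.2)⟩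
  refine h3.trans ?_
  rw [sum_product]
  change ∑ _x : G, ∑ y ∈ range (N / q + 1), F y ≤ _
  rw [sum_const, nsmul_eq_mul, card_univ, ← Nat.card_eq_fintype_card]
  refine mul_le_mul_of_nonneg_left ?_ (Nat.cast_nonneg _)
  rw [sum_range_succ']
  have h4 : ∑ j ∈ range (N / q), F (j + 1) ≤ 2 * √N / q := by
    have e1 : ∑ j ∈ range (N / q), F (j + 1) = (∑ j ∈ Icc 1 (N / q), (√(j : ℝ))⁻¹) * (√(q : ℝ))⁻¹ := by
      rw [sum_mul]
      refine sum_bij (fun j _ => j + 1) ?_ ?_ ?_ ?_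
      · intro j hj
        rw [mem_range] at hj
        rw [mem_Icc]
        omega
      · intro i _ j _ h
        omega
      · intro j hj
        rw [mem_Icc] at hj
        exact ⟨j - 1, mem_range.2 (by omega), by omega⟩
      · intro j _
        simp only [hF]
        rw [if_neg (by omega)]
    rw [e1]
    have h5 := sum_inv_sqrt (N / q)
    have h6 : √((N / q : ℕ) : ℝ) ≤ √N / √q := by
      rw [← Real.sqrt_div (Nat.cast_nonneg N)]
      exact Real.sqrt_le_sqrt Nat.cast_div_le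
    have hsq : 0 < √(q : ℝ) := Real.sqrt_pos.2 hq0'
    calc (∑ j ∈ Icc 1 (N / q), (√(j : ℝ))⁻¹) * (√(q : ℝ))⁻¹ ≤ (2 * (√N / √q)) * (√(q : ℝ))⁻¹ := by
          refine mul_le_mul_of_nonneg_right (h5.trans ?_) (by positivity)
          linarith
      _ = 2 * √N / q := by
          rw [show (q : ℝ) = √q * √q from (Real.mul_self_sqrt hq0'.le).symm]
          rw [show √(√(q : ℝ) * √q) = √q by rw [Real.mul_self_sqrt hq0'.le]]
          field_simp
  have h7 : F 0 = (√(K : ℝ))⁻¹ := if_pos rfl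
  rw [h7]
  linarith

section

variable {P : Finset ℕ} {I : ℕ} {l : ℝ}

/-- the resonator -/
noncomputable def RR (P : Finset ℕ) (I : ℕ) (l : ℝ) (χ : DirichletCharacter ℂ q) : ℂ :=
  ∑ n ∈ MM P I, ((rr l n : ℝ) : ℂ) * χ ((n : ℕ) : ZMod q)

lemma RR_le (hl : 0 ≤ l) (χ : DirichletCharacter ℂ q) : ‖RR P I l χ‖ ≤ ∑ n ∈ MM P I, rr l n := by
  refine (norm_sum_le _ _).trans (sum_le_sum fun n _ => ?_)
  rw [norm_mul, Complex.norm_real, Real.norm_of_nonneg (rr_nonneg hl n)]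
  exact mul_le_of_le_one_right (rr_nonneg hl n) (χ.norm_le_one _)

lemma sum_rr_sq (hP : ∀ p ∈ P, p.Prime) {M : ℕ} (hM : ∀ n ∈ MM P I, n ≤ M) :
    (∑ n ∈ MM P I, rr l n) ^ 2 ≤ M * T1 P I l := by
  have h1 : (#(MM P I) : ℝ) ≤ M := by
    have : #(MM P I) ≤ #(Icc 1 M) := card_le_card fun n hn => mem_Icc.2 ⟨MM_pos hP hn, hM n hn⟩
    rw [Nat.card_Icc, Nat.add_sub_cancel] at this
    exact_mod_cast this
  have h2 : ∑ n ∈ MM P I, rr l n ^ 2 = T1 P I l := by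
    refine sum_congr rfl fun n _ => ?_
    unfold rr
    rw [div_pow, Real.sq_sqrt (Nat.cast_nonneg n)]
  refine (sq_sum_le_card_mul_sum_sq (s := MM P I) (f := fun n => rr l n)).trans ?_
  rw [h2]
  exact mul_le_mul_of_nonneg_right h1 T1_nonneg

lemma LE_norm_le (E N : ℕ) (χ : DirichletCharacter ℂ q) : ‖LE E N χ‖ ≤ 2 * √N := by
  refine (norm_sum_le _ _).trans ?_
  refine (sum_le_sum (g := fun n : ℕ => (√(n : ℝ))⁻¹) fun n _ => ?_).trans
    ((sum_le_sum_of_subset_of_nonneg (filter_subset _ _) fun _ _ _ => by positivity).trans (sum_inv_sqrt N))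
  rw [norm_mul, Complex.norm_real, Real.norm_of_nonneg (by positivity)]
  exact mul_le_of_le_one_right (by positivity) (χ.norm_le_one _)

/-- **The resonance inequality in a coset.** -/
theorem main_ineq (hq : q.Prime) (hq2 : q ≠ 2) {H : Subgroup (DirichletCharacter ℂ q)}
    {𝓗 𝓕 : Finset (DirichletCharacter ℂ q)} {ψ : DirichletCharacter ℂ q}
    (h : ∀ χ, χ ∈ 𝓗 ↔ χ ∈ H) (hF : ∀ χ, χ ∈ 𝓕 ↔ ψ⁻¹ * χ ∈ H) {A K M N E : ℕ} (hA : 1 ≤ A)
    (hE : E ≠ 0)
    (hrel : ∀ a b : ℕ, 0 < a → 0 < b → a ≤ A → b ≤ A → a.Coprime b → a.Coprime E → b.Coprime E →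
      Rel (orth H) a b → a = 1 ∧ b = 1) (hB : K * M * (K * M) < q) (hK : 1 ≤ K) (hM1 : 1 ≤ M)
    (hKM : M ≤ K) (hKN : K ≤ N) (hN : 4 * 4 ^ #E.primeFactors * q * Real.log q ^ 2 ≤ N)
    (hP : ∀ p ∈ P, p.Prime) (hl : 0 ≤ l) (hlP : ∀ p ∈ P, 1 + l ≤ (p : ℝ) ^ (1 / 6 : ℝ))
    (hM : ∀ n ∈ MM P I, n ≤ M ∧ n.Coprime E ∧ n.Coprime q) {V : ℝ}
    (hV : ∀ χ ∈ 𝓕, χ ≠ 1 → ‖χ.LFunction (1 / 2)‖ ≤ V) (hV0 : 0 ≤ V) :
    (1 - Nat.card (orth H) * (A : ℝ) ^ (-(1 / 3) : ℝ)) * T0 P I l ≤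
      ((V * Real.exp (∑ p ∈ E.primeFactors, (√(p : ℝ))⁻¹) + 1) *
        (1 + Nat.card (orth H) * (A : ℝ) ^ (-(1 / 3) : ℝ)) +
        Nat.card (orth H) * M * ((√(K : ℝ))⁻¹ + 6 * √N / q)) * T1 P I l := by
  classical
  set k₀ : ℝ := ((Nat.card (orth H) : ℕ) : ℝ) with hk₀
  set ε : ℝ := k₀ * (A : ℝ) ^ (-(1 / 3) : ℝ) with hε
  set W : ℝ := V * Real.exp (∑ p ∈ E.primeFactors, (√(p : ℝ))⁻¹) + 1 with hW
  have hW0 : 0 ≤ W := by positivity
  have hq3 : 3 ≤ q := by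
    have := hq.two_le
    omega
  have hq0 : (0 : ℝ) < q := by exact_mod_cast hq.pos
  have hN1 : 1 ≤ N := hK.trans hKN
  set hh : ℝ := ((#𝓗 : ℕ) : ℝ) with hhh
  have hcF : (#𝓕 : ℝ) = hh := by rw [card_coset h hF]
  have hh0 : 0 < hh := by
    have : 0 < #𝓗 := card_pos.2 ⟨1, (h 1).2 H.one_mem⟩
    rw [hhh]
    exact_mod_cast this
  have hhk : hh * k₀ = q - 1 := by
    have h1 := card_orth h
    rw [Nat.totient_prime hq] at h1
    have h2 : ((#𝓗 * Nat.card (orth H) : ℕ) : ℝ) = ((q - 1 : ℕ) : ℝ) := by rw [h1]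
    rw [Nat.cast_sub hq.one_lt.le] at h2
    push_cast at h2
    exact h2
  set Ks := (Icc 1 N).filter (fun n => n.Coprime E) with hKs
  set 𝒯 := Ks ×ˢ (MM P I ×ˢ MM P I) with h𝒯
  set t : ℕ × ℕ × ℕ → ℝ := fun x => (√(x.1 : ℝ))⁻¹ * (rr l x.2.1 * rr l x.2.2) with ht
  have ht0 : ∀ x, 0 ≤ t x := fun x =>
    mul_nonneg (by positivity) (mul_nonneg (rr_nonneg hl _) (rr_nonneg hl _))
  have hmem : ∀ x ∈ 𝒯, (1 ≤ x.1 ∧ x.1 ≤ N) ∧ x.1.Coprime E ∧ x.2.1 ∈ MM P I ∧ x.2.2 ∈ MM P I := by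
    intro x hx
    rw [h𝒯, mem_product, mem_product, hKs, mem_filter, mem_Icc] at hx
    exact ⟨hx.1.1, hx.1.2, hx.2⟩
  set S : ℕ × ℕ × ℕ → ℂ := fun x => ∑ χ ∈ 𝓕,
    χ ((x.1 : ℕ) : ZMod q) * (χ ((x.2.2 : ℕ) : ZMod q) * conj (χ ((x.2.1 : ℕ) : ZMod q))) with hS
  -- the expansion
  have hexp : ∀ χ : DirichletCharacter ℂ q, LE E N χ * (RR P I l χ * conj (RR P I l χ)) =
      ∑ x ∈ 𝒯, ((t x : ℝ) : ℂ) *
        (χ ((x.1 : ℕ) : ZMod q) * (χ ((x.2.2 : ℕ) : ZMod q) * conj (χ ((x.2.1 : ℕ) : ZMod q)))) := by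
    intro χ
    rw [mul_comm (RR P I l χ), h𝒯, sum_product, LE, RR, map_sum, sum_mul_sum, sum_mul_sum]
    refine sum_congr rfl fun k _ => ?_
    rw [sum_product, ← mul_sum]
    rw [mul_sum]
    refine sum_congr rfl fun m _ => ?_
    rw [mul_sum]
    refine sum_congr rfl fun n _ => ?_
    simp only [ht]
    rw [map_mul, Complex.conj_ofReal]
    push_cast
    ring
  have hU : ∑ χ ∈ 𝓕, LE E N χ * (RR P I l χ * conj (RR P I l χ)) = ∑ x ∈ 𝒯, ((t x : ℝ) : ℂ) * S x := by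
    rw [sum_congr rfl fun χ _ => hexp χ, sum_comm]
    refine sum_congr rfl fun x _ => ?_
    rw [hS, mul_sum]
  -- the sums over the characters
  have hS1 : ∀ x ∈ 𝒯, ‖S x‖ ≤ hh ∧ (S x ≠ 0 → Rel (orth H) (x.1 * x.2.2) x.2.1) ∧
      (x.1 * x.2.2 = x.2.1 → S x = hh) := by
    intro x hx
    obtain ⟨_, _, h3, h4⟩ := hmem x hx
    have e1 : S x = ∑ χ ∈ 𝓕, χ ((x.1 * x.2.2 : ℕ) : ZMod q) * conj (χ ((x.2.1 : ℕ) : ZMod q)) := by
      simp only [hS]
      refine sum_congr rfl fun χ _ => ?_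
      push_cast
      rw [map_mul, mul_assoc]
    by_cases hc : x.1.Coprime q
    · obtain ⟨k1, k2⟩ := sum_three h hF (Nat.Coprime.mul_left hc (hM _ h4).2.2) (hM _ h3).2.2
      rw [← e1] at k1 k2
      refine ⟨k1, fun h5 => by_contra fun h6 => h5 (k2 h6), fun h5 => ?_⟩
      rw [e1, h5, sum_diag (hM _ h3).2.2]
      rw [← hcF]
      norm_num
    · have e2 : S x = 0 := by
        simp only [hS]
        refine sum_eq_zero fun χ _ => ?_
        rw [MulChar.map_nonunit χ (by rwa [ZMod.isUnit_iff_coprime]), zero_mul]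
      refine ⟨by rw [e2, norm_zero]; exact hh0.le, fun h5 => absurd e2 h5, fun h5 => ?_⟩
      exfalso
      apply hc
      refine Nat.Coprime.coprime_dvd_left ?_ (hM _ h3).2.2
      rw [← h5]
      exact Dvd.intro _ rfl
  set D := 𝒯.filter (fun x => x.1 * x.2.2 = x.2.1) with hD
  set X1 := 𝒯.filter (fun x => x.1 * x.2.2 ≠ x.2.1 ∧ x.1 ≤ K ∧ S x ≠ 0) with hX1
  set X2 := 𝒯.filter (fun x => x.1 * x.2.2 ≠ x.2.1 ∧ ¬ x.1 ≤ K ∧ S x ≠ 0) with hX2
  have hlow : hh * (∑ x ∈ D, t x - ∑ x ∈ X1, t x - ∑ x ∈ X2, t x) ≤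
      (∑ χ ∈ 𝓕, LE E N χ * (RR P I l χ * conj (RR P I l χ))).re := by
    rw [hU, Complex.re_sum, hD, hX1, hX2, sum_filter, sum_filter, sum_filter, ← sum_sub_distrib,
      ← sum_sub_distrib, mul_sum]
    refine sum_le_sum fun x hx => ?_
    obtain ⟨k1, _, k3⟩ := hS1 x hx
    rw [Complex.re_ofReal_mul]
    by_cases c1 : x.1 * x.2.2 = x.2.1
    · rw [if_pos c1, if_neg fun h => h.1 c1, if_neg fun h => h.1 c1, k3 c1, Complex.ofReal_re]
      linarith
    · rw [if_neg c1]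
      by_cases c3 : S x = 0
      · rw [if_neg fun h => h.2.2 c3, if_neg fun h => h.2.2 c3, c3, Complex.zero_re]
        linarith
      · have k4 : -hh ≤ (S x).re := by
          have := Complex.abs_re_le_norm (S x)
          rw [abs_le] at this
          linarith [this.1]
        have k5 := ht0 x
        by_cases c2 : x.1 ≤ K
        · rw [if_pos ⟨c1, c2, c3⟩, if_neg fun h => h.2.1 c2]
          nlinarith
        · rw [if_neg fun h => c2 h.2.1, if_pos ⟨c1, c2, c3⟩]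
          nlinarith
  -- the diagonal
  have hdiag : T0 P I l ≤ ∑ x ∈ D, t x := by
    have e1 : T0 P I l = ∑ v ∈ (MM P I ×ˢ MM P I).filter (fun v => v.2 ∣ v.1), ww l v.1 / v.1 * ww l v.2 := by
      rw [sum_filter, sum_product]
      refine sum_congr rfl fun m _ => ?_
      rw [← sum_filter, mul_sum]
    have hinj : Set.InjOn (fun v : ℕ × ℕ => (v.1 / v.2, v))
        ((MM P I ×ˢ MM P I).filter (fun v => v.2 ∣ v.1) : Finset (ℕ × ℕ)) := by
      intro v _ w _ h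
      simp only [Prod.mk.injEq] at h
      exact h.2
    have e2 : T0 P I l = ∑ x ∈ ((MM P I ×ˢ MM P I).filter (fun v => v.2 ∣ v.1)).image
        (fun v : ℕ × ℕ => (v.1 / v.2, v)), t x := by
      rw [sum_image hinj, e1]
      refine sum_congr rfl fun v hv => ?_
      rw [mem_filter, mem_product] at hv
      have p1 : (0 : ℝ) < v.1 := by exact_mod_cast MM_pos hP hv.1.1
      have p2 : (0 : ℝ) < v.2 := by exact_mod_cast MM_pos hP hv.1.2
      simp only [ht]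
      unfold rr
      rw [Nat.cast_div hv.2 p2.ne', Real.sqrt_div p1.le]
      have s1 : (v.1 : ℝ) = √(v.1 : ℝ) * √(v.1 : ℝ) := (Real.mul_self_sqrt p1.le).symm
      have s3 : √(v.1 : ℝ) ≠ 0 := (Real.sqrt_pos.2 p1).ne'
      have s4 : √(v.2 : ℝ) ≠ 0 := (Real.sqrt_pos.2 p2).ne'
      generalize √(v.1 : ℝ) = x at *
      generalize √(v.2 : ℝ) = y at *
      rw [s1]
      field_simp
    rw [e2]
    refine sum_le_sum_of_subset_of_nonneg ?_ fun x _ _ => ht0 x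
    intro x hx
    obtain ⟨v, hv, rfl⟩ := mem_image.1 hx
    rw [mem_filter, mem_product] at hv
    have p1 := MM_pos hP hv.1.1
    have p2 := MM_pos hP hv.1.2
    rw [hD, mem_filter, h𝒯, mem_product, mem_product, hKs, mem_filter, mem_Icc]
    refine ⟨⟨⟨⟨Nat.div_pos (Nat.le_of_dvd p1 hv.2) p2, ?_⟩, ?_⟩, hv.1⟩, Nat.div_mul_cancel hv.2⟩
    · exact (Nat.div_le_self _ _).trans ((hM _ hv.1.1).1.trans (hKM.trans hKN))
    · exact Nat.Coprime.coprime_dvd_left (Nat.div_dvd_of_dvd hv.2) (hM _ hv.1.1).2.1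
  -- the small relations
  have hoff1 : ∑ x ∈ X1, t x ≤ ε * T0 P I l := by
    refine off_small hq hA hrel hB hK hP hl hlP hM X1 fun x hx => ?_
    rw [hX1, mem_filter] at hx
    obtain ⟨h1, h2, h3, h4⟩ := hmem x hx.1
    exact ⟨h1.1, hx.2.2.1, h2, h3, h4, hx.2.1, (hS1 x hx.1).2.1 hx.2.2.2⟩
  -- the tail
  set R1 : ℝ := ∑ n ∈ MM P I, rr l n with hR1
  have hR10 : 0 ≤ R1 := sum_nonneg fun n _ => rr_nonneg hl n
  have hR1sq : R1 ^ 2 ≤ M * T1 P I l := sum_rr_sq hP fun n hn => (hM n hn).1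
  have hoff2 : ∑ x ∈ X2, t x ≤ R1 ^ 2 * (k₀ * ((√(K : ℝ))⁻¹ + 2 * √N / q)) := by
    have e1 : ∑ x ∈ X2, t x = ∑ v ∈ MM P I ×ˢ MM P I, ∑ x ∈ X2.filter (fun x => x.2 = v), t x := by
      refine (sum_fiberwise_of_maps_to (fun x hx => ?_) t).symm
      rw [hX2, mem_filter] at hx
      obtain ⟨_, _, h3, h4⟩ := hmem x hx.1
      exact mem_product.2 ⟨h3, h4⟩
    rw [e1]
    have e2 : ∀ v ∈ MM P I ×ˢ MM P I, ∑ x ∈ X2.filter (fun x => x.2 = v), t x ≤
        (rr l v.1 * rr l v.2) * (k₀ * ((√(K : ℝ))⁻¹ + 2 * √N / q)) := by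
      intro v hv
      rw [mem_product] at hv
      have hinj : Set.InjOn (fun x : ℕ × ℕ × ℕ => x.1) (X2.filter (fun x => x.2 = v) : Finset (ℕ × ℕ × ℕ)) := by
        intro x hx y hy h
        rw [mem_coe, mem_filter] at hx hy
        exact Prod.ext h (hx.2.trans hy.2.symm)
      have e3 : ∑ x ∈ X2.filter (fun x => x.2 = v), t x = (rr l v.1 * rr l v.2) *
          ∑ k ∈ ((X2.filter (fun x => x.2 = v)).image (fun x => x.1) : Finset ℕ), (√(k : ℝ))⁻¹ := by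
        rw [sum_image hinj, mul_sum]
        refine sum_congr rfl fun x hx => ?_
        rw [mem_filter] at hx
        simp only [ht]
        rw [hx.2]
        ring
      rw [e3]
      refine mul_le_mul_of_nonneg_left ?_ (mul_nonneg (rr_nonneg hl _) (rr_nonneg hl _))
      refine tail_le (m := v.1) hK (hM _ hv.2).2.2 _ fun k hk => ?_
      obtain ⟨x, hx, rfl⟩ := mem_image.1 hk
      rw [mem_filter, hX2, mem_filter] at hx
      obtain ⟨h1, _, _, _⟩ := hmem x hx.1.1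
      have h5 := (hS1 x hx.1.1).2.1 hx.1.2.2.2
      rw [hx.2] at h5
      exact ⟨⟨not_le.1 hx.1.2.2.1, h1.2⟩, h5⟩
    refine (sum_le_sum e2).trans (le_of_eq ?_)
    rw [← sum_mul, sum_product, hR1, sq, sum_mul_sum]
  -- the mean square
  have hsq : ∑ χ ∈ 𝓕, ‖RR P I l χ‖ ^ 2 ≤ hh * ((1 + ε) * T1 P I l) := by
    set 𝒮 := MM P I ×ˢ MM P I with h𝒮
    set t2 : ℕ × ℕ → ℝ := fun x => rr l x.1 * rr l x.2 with ht2
    have ht20 : ∀ x, 0 ≤ t2 x := fun x => mul_nonneg (rr_nonneg hl _) (rr_nonneg hl _)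
    set S2 : ℕ × ℕ → ℂ := fun x => ∑ χ ∈ 𝓕,
      χ ((x.2 : ℕ) : ZMod q) * conj (χ ((x.1 : ℕ) : ZMod q)) with hS2
    have e1 : ∀ χ : DirichletCharacter ℂ q, RR P I l χ * conj (RR P I l χ) =
        ∑ x ∈ 𝒮, ((t2 x : ℝ) : ℂ) * (χ ((x.2 : ℕ) : ZMod q) * conj (χ ((x.1 : ℕ) : ZMod q))) := by
      intro χ
      rw [mul_comm, h𝒮, sum_product, RR, map_sum, sum_mul_sum]
      refine sum_congr rfl fun m _ => ?_
      refine sum_congr rfl fun n _ => ?_
      simp only [ht2]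
      rw [map_mul, Complex.conj_ofReal]
      push_cast
      ring
    have e2 : ∑ χ ∈ 𝓕, ‖RR P I l χ‖ ^ 2 = ∑ x ∈ 𝒮, t2 x * (S2 x).re := by
      have e3 : ∑ χ ∈ 𝓕, ‖RR P I l χ‖ ^ 2 = (∑ χ ∈ 𝓕, RR P I l χ * conj (RR P I l χ)).re := by
        rw [Complex.re_sum]
        refine sum_congr rfl fun χ _ => ?_
        rw [Complex.mul_conj, Complex.normSq_eq_norm_sq, Complex.ofReal_re]
      rw [e3, sum_congr rfl fun χ _ => e1 χ, sum_comm, Complex.re_sum]
      refine sum_congr rfl fun x _ => ?_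
      rw [← mul_sum, Complex.re_ofReal_mul]
    rw [e2]
    set X3 := 𝒮.filter (fun x => x.2 ≠ x.1 ∧ S2 x ≠ 0) with hX3
    have e4 : ∀ x ∈ 𝒮, t2 x * (S2 x).re ≤
        (if x.2 = x.1 then hh * t2 x else 0) + (if x.2 ≠ x.1 ∧ S2 x ≠ 0 then hh * t2 x else 0) := by
      intro x hx
      rw [h𝒮, mem_product] at hx
      by_cases c1 : x.2 = x.1
      · rw [if_pos c1, if_neg fun h => h.1 c1, add_zero]
        have : S2 x = hh := by
          simp only [hS2]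
          rw [c1, sum_diag (hM _ hx.1).2.2, ← hcF]
          norm_num
        rw [this, Complex.ofReal_re, mul_comm]
      · rw [if_neg c1, zero_add]
        by_cases c2 : S2 x = 0
        · rw [if_neg fun h => h.2 c2, c2, Complex.zero_re, mul_zero]
        · rw [if_pos ⟨c1, c2⟩]
          have k1 := (sum_three h hF (hM _ hx.2).2.2 (hM _ hx.1).2.2).1
          have k2 := (Complex.re_le_norm (S2 x)).trans k1
          rw [mul_comm]
          exact mul_le_mul_of_nonneg_right k2 (ht20 x)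
    refine (sum_le_sum e4).trans ?_
    rw [sum_add_distrib, ← sum_filter, ← sum_filter, ← mul_sum, ← mul_sum, ← mul_add]
    refine mul_le_mul_of_nonneg_left ?_ hh0.le
    have e5 : ∑ x ∈ 𝒮.filter (fun x => x.2 = x.1), t2 x ≤ T1 P I l := by
      have hinj : Set.InjOn (fun x : ℕ × ℕ => x.1) (𝒮.filter (fun x => x.2 = x.1) : Finset (ℕ × ℕ)) := by
        intro x hx y hy h
        rw [mem_coe, mem_filter] at hx hy
        replace h : x.1 = y.1 := h
        exact Prod.ext h (by rw [hx.2, hy.2, h])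
      have e6 : ∑ x ∈ 𝒮.filter (fun x => x.2 = x.1), t2 x =
          ∑ m ∈ (𝒮.filter (fun x => x.2 = x.1)).image (fun x => x.1), ww l m ^ 2 / (m : ℝ) := by
        rw [sum_image hinj]
        refine sum_congr rfl fun x hx => ?_
        rw [mem_filter] at hx
        simp only [ht2]
        unfold rr
        rw [hx.2, div_mul_div_comm, Real.mul_self_sqrt (Nat.cast_nonneg _), sq]
      rw [e6]
      refine sum_le_sum_of_subset_of_nonneg ?_ fun m _ _ => by positivity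
      intro m hm
      obtain ⟨x, hx, rfl⟩ := mem_image.1 hm
      rw [mem_filter, h𝒮, mem_product] at hx
      exact hx.1.1
    have e7 : ∑ x ∈ X3, t2 x ≤ ε * T1 P I l := by
      have hB' : M * M < q := by
        refine lt_of_le_of_lt ?_ hB
        have : M ≤ K * M := by
          calc M = 1 * M := (one_mul M).symm
            _ ≤ K * M := Nat.mul_le_mul_right _ hK
        exact Nat.mul_le_mul this this
      refine off_sq hq hA hrel hB' hP hl hlP hM X3 fun x hx => ?_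
      rw [hX3, mem_filter, h𝒮, mem_product] at hx
      refine ⟨hx.1.1, hx.1.2, hx.2.1, ?_⟩
      by_contra hno
      exact hx.2.2 ((sum_three h hF (hM _ hx.1.2).2.2 (hM _ hx.1.1).2.2).2 hno)
    rw [add_mul, one_mul]
    exact add_le_add e5 e7
  -- the upper bound
  have hup : (∑ χ ∈ 𝓕, LE E N χ * (RR P I l χ * conj (RR P I l χ))).re ≤
      W * (hh * ((1 + ε) * T1 P I l)) + 2 * √N * (M * T1 P I l) := by
    rw [Complex.re_sum]
    have h5 : ∀ χ ∈ 𝓕, (LE E N χ * (RR P I l χ * conj (RR P I l χ))).re ≤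
        W * ‖RR P I l χ‖ ^ 2 + if χ = 1 then 2 * √N * R1 ^ 2 else 0 := by
      intro χ hχ
      have h6 : ‖LE E N χ * (RR P I l χ * conj (RR P I l χ))‖ = ‖LE E N χ‖ * ‖RR P I l χ‖ ^ 2 := by
        rw [norm_mul, norm_mul, Complex.norm_conj]
        ring
      refine (Complex.re_le_norm _).trans ?_
      rw [h6]
      split_ifs with hc
      · have h7 := LE_norm_le E N χ
        have h8 : ‖RR P I l χ‖ ^ 2 ≤ R1 ^ 2 := pow_le_pow_left₀ (norm_nonneg _) (RR_le hl χ) 2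
        have h9 : ‖LE E N χ‖ * ‖RR P I l χ‖ ^ 2 ≤ 2 * √N * R1 ^ 2 :=
          mul_le_mul h7 h8 (by positivity) (by positivity)
        have h10 : 0 ≤ W * ‖RR P I l χ‖ ^ 2 := by positivity
        linarith
      · rw [add_zero]
        refine mul_le_mul_of_nonneg_right ?_ (by positivity)
        refine (LE_le hq hq2 hc hE hN1 hN).trans ?_
        rw [hW]
        have := mul_le_mul_of_nonneg_right (hV χ hχ hc) (Real.exp_pos (∑ p ∈ E.primeFactors, (√(p : ℝ))⁻¹)).le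
        linarith
    refine (sum_le_sum h5).trans ?_
    rw [sum_add_distrib, ← mul_sum]
    refine add_le_add (mul_le_mul_of_nonneg_left hsq hW0) ?_
    rw [sum_ite_eq' 𝓕 1]
    split_ifs
    · exact mul_le_mul_of_nonneg_left hR1sq (by positivity)
    · have := T1_nonneg (P := P) (I := I) (l := l)
      positivity
  -- conclusion
  have hT1 : 0 ≤ T1 P I l := T1_nonneg
  have hk₀0 : 0 ≤ k₀ := Nat.cast_nonneg _
  have hMn : (0 : ℝ) ≤ M := Nat.cast_nonneg M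
  have h2 : R1 ^ 2 * (k₀ * ((√(K : ℝ))⁻¹ + 2 * √N / q)) ≤
      M * T1 P I l * (k₀ * ((√(K : ℝ))⁻¹ + 2 * √N / q)) :=
    mul_le_mul_of_nonneg_right hR1sq (by positivity)
  have h3 : hh * ((1 - ε) * T0 P I l - M * T1 P I l * (k₀ * ((√(K : ℝ))⁻¹ + 2 * √N / q))) ≤
      W * (hh * ((1 + ε) * T1 P I l)) + 2 * √N * (M * T1 P I l) := by
    refine le_trans ?_ (hlow.trans hup)
    refine mul_le_mul_of_nonneg_left ?_ hh0.le
    linarith
  have hq1 : (q : ℝ) ≤ 2 * (hh * k₀) := by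
    have : (3 : ℝ) ≤ q := by exact_mod_cast hq3
    rw [hhk]
    linarith
  have h4 : 2 * √N * (M * T1 P I l) ≤ hh * (k₀ * M * (4 * √N / q) * T1 P I l) := by
    have h5 : (1 : ℝ) ≤ 2 * (hh * k₀) / q := by
      rw [le_div_iff₀ hq0, one_mul]
      exact hq1
    have h6 : 0 ≤ 2 * √N * (M * T1 P I l) := by positivity
    calc 2 * √N * (M * T1 P I l) = 2 * √N * (M * T1 P I l) * 1 := (mul_one _).symm
      _ ≤ 2 * √N * (M * T1 P I l) * (2 * (hh * k₀) / q) := mul_le_mul_of_nonneg_left h5 h6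
      _ = _ := by ring
  have h5 : hh * ((1 - ε) * T0 P I l) ≤ hh * ((W * (1 + ε) + k₀ * M * ((√(K : ℝ))⁻¹ + 6 * √N / q)) * T1 P I l) := by
    have e : hh * ((W * (1 + ε) + k₀ * M * ((√(K : ℝ))⁻¹ + 6 * √N / q)) * T1 P I l) =
        W * (hh * ((1 + ε) * T1 P I l)) + hh * (k₀ * M * (4 * √N / q) * T1 P I l) +
          hh * (M * T1 P I l * (k₀ * ((√(K : ℝ))⁻¹ + 2 * √N / q))) := by ring
    rw [e]
    rw [mul_sub] at h3
    linarith
  exact le_of_mul_le_mul_left h5 hh0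

end

end Pool.Agent.Q28.CS
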