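import Pool.Agent.Q28.CS.Core3

/-!
# The reciprocals of the square roots of the prime divisors of a small number
-/

set_option autoImplicit false
set_option linter.unusedSectionVars false

namespace Pool.Agent.Q28.CS

open Finset Filter

lemma abel_le {a b : ℕ → ℝ} {C : ℝ} (hb : ∀ n, b (n + 1) ≤ b n)
    (hA : ∀ n : ℕ, ∑ k ∈ range n, a k ≤ C * n) (n : ℕ) :
    b n * (C * n - ∑ k ∈ range n, a k) ≤ C * ∑ k ∈ range n, b k - ∑ k ∈ range n, a k * b k := by
  induction n with
  | zero => simp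
  | succ n ih =>
    have h1 := hA (n + 1)
    rw [sum_range_succ] at h1
    rw [sum_range_succ, sum_range_succ, sum_range_succ]
    push_cast at h1 ⊢
    have h2 := mul_le_mul_of_nonneg_right (hb n)
      (show 0 ≤ C * ((n : ℝ) + 1) - (∑ k ∈ range n, a k + a n) by linarith)
    nlinarith

lemma sum_shift (f : ℕ → ℝ) (n : ℕ) : ∑ k ∈ range n, f (k + 1) = ∑ j ∈ Icc 1 n, f j := by
  induction n with
  | zero => simp
  | succ n ih => rw [sum_range_succ, ih, sum_Icc_succ_top (by omega)]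

lemma sum_log_sqrt (T : ℕ) :
    ∑ p ∈ (Icc 1 T).filter Nat.Prime, Real.log p * (√(p : ℝ))⁻¹ ≤ 3 * √T := by
  set f : ℕ → ℝ := fun k => if k.Prime then Real.log (k : ℝ) else 0 with hf
  set b : ℕ → ℝ := fun k => (√((k + 1 : ℕ) : ℝ))⁻¹ with hb
  have hbm : ∀ n, b (n + 1) ≤ b n := by
    intro n
    simp only [hb]
    refine inv_anti₀ (Real.sqrt_pos.2 (by positivity)) (Real.sqrt_le_sqrt ?_)
    push_cast
    linarith
  have hb0 : ∀ n, 0 ≤ b n := fun n => by simp only [hb]; positivity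
  have hA : ∀ n : ℕ, ∑ k ∈ range n, f (k + 1) ≤ Real.log 4 * n := by
    intro n
    have h1 := Chebyshev.theta_le_log4_mul_x (Nat.cast_nonneg (α := ℝ) n)
    refine le_trans (le_of_eq ?_) h1
    rw [sum_shift, Chebyshev.theta, Nat.floor_natCast, sum_filter]
    refine sum_congr ?_ fun _ _ => rfl
    ext k
    simp only [mem_Icc, mem_Ioc]
    omega
  have h1 := abel_le hbm hA T
  have h2 : 0 ≤ b T * (Real.log 4 * T - ∑ k ∈ range T, f (k + 1)) :=
    mul_nonneg (hb0 T) (by linarith [hA T])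
  have e1 : ∑ p ∈ (Icc 1 T).filter Nat.Prime, Real.log p * (√(p : ℝ))⁻¹ = ∑ k ∈ range T, f (k + 1) * b k := by
    rw [sum_filter, ← sum_shift (fun k => if k.Prime then Real.log (k : ℝ) * (√(k : ℝ))⁻¹ else 0) T]
    refine sum_congr rfl fun k _ => ?_
    simp only [hf, hb]
    split_ifs
    · rfl
    · rw [zero_mul]
  have e2 : ∑ k ∈ range T, b k ≤ 2 * √T := by
    have := sum_shift (fun k => (√(k : ℝ))⁻¹) T
    simp only [hb]
    rw [this]
    exact sum_inv_sqrt T
  have h4 : Real.log 4 ≤ 3 / 2 := by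
    have h5 : Real.log 4 = 2 * Real.log 2 := by
      rw [show (4 : ℝ) = 2 ^ 2 by norm_num, Real.log_pow]
      push_cast
      ring
    have := Real.log_two_lt_d9
    rw [h5]
    linarith
  have h5 : Real.log 4 * ∑ k ∈ range T, b k ≤ 3 / 2 * (2 * √T) :=
    mul_le_mul h4 e2 (sum_nonneg fun k _ => hb0 k) (by norm_num)
  rw [e1]
  linarith

lemma sum_prime_sqrt {T : ℕ} (hT : 2 ≤ T) :
    ∑ p ∈ (Icc 1 T).filter Nat.Prime, (√(p : ℝ))⁻¹ ≤ 14 * √T / Real.log T := by
  have hT0 : (0 : ℝ) < T := by exact_mod_cast (by omega : 0 < T)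
  have hlog : 0 < Real.log T := Real.log_pos (by exact_mod_cast (by omega : 1 < T))
  set R := Nat.sqrt T with hR
  have h1 : ∀ p ∈ (Icc 1 T).filter Nat.Prime, (√(p : ℝ))⁻¹ ≤
      (if p ≤ R then (√(p : ℝ))⁻¹ else 0) + 2 / Real.log T * (Real.log p * (√(p : ℝ))⁻¹) := by
    intro p hp
    rw [mem_filter, mem_Icc] at hp
    have hp0 : (0 : ℝ) < p := by exact_mod_cast hp.2.pos
    have hlp : 0 ≤ Real.log p := Real.log_nonneg (by exact_mod_cast hp.2.one_lt.le)
    split_ifs with h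
    · have : 0 ≤ 2 / Real.log T * (Real.log p * (√(p : ℝ))⁻¹) := by positivity
      linarith
    · rw [zero_add]
      have h2 : T < p * p := by
        rw [not_le] at h
        exact Nat.sqrt_lt.1 h
      have h3 : Real.log T ≤ 2 * Real.log p := by
        have h4 : (T : ℝ) ≤ p * p := by exact_mod_cast h2.le
        have h5 := Real.log_le_log hT0 h4
        rw [Real.log_mul hp0.ne' hp0.ne'] at h5
        linarith
      have h4 : 1 ≤ 2 / Real.log T * Real.log p := by
        rw [div_mul_eq_mul_div, le_div_iff₀ hlog, one_mul]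
        exact h3
      calc (√(p : ℝ))⁻¹ = 1 * (√(p : ℝ))⁻¹ := (one_mul _).symm
        _ ≤ 2 / Real.log T * Real.log p * (√(p : ℝ))⁻¹ := mul_le_mul_of_nonneg_right h4 (by positivity)
        _ = _ := by ring
  refine (sum_le_sum h1).trans ?_
  rw [sum_add_distrib, ← mul_sum, ← sum_filter]
  have h2 : ∑ p ∈ ((Icc 1 T).filter Nat.Prime).filter (fun p => p ≤ R), (√(p : ℝ))⁻¹ ≤ 2 * √(R : ℝ) := by
    refine le_trans (sum_le_sum_of_subset_of_nonneg ?_ fun _ _ _ => by positivity) (sum_inv_sqrt R)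
    intro p hp
    rw [mem_filter, mem_filter, mem_Icc] at hp
    rw [mem_Icc]
    exact ⟨hp.1.1.1, hp.2⟩
  have h3 : √(R : ℝ) ≤ √(√(T : ℝ)) := by
    refine Real.sqrt_le_sqrt (Real.le_sqrt_of_sq_le ?_)
    have := Nat.sqrt_le' T
    exact_mod_cast this
  have h4 : √(√(T : ℝ)) * Real.log T ≤ 4 * √T := by
    set z := √(√(T : ℝ)) with hz
    have hz0 : 0 < z := Real.sqrt_pos.2 (Real.sqrt_pos.2 hT0)
    have e1 : z * z = √T := Real.mul_self_sqrt (Real.sqrt_nonneg _)
    have e2 : √(T : ℝ) * √T = T := Real.mul_self_sqrt hT0.le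
    have e3 : Real.log T = 4 * Real.log z := by
      rw [← e2, Real.log_mul (Real.sqrt_pos.2 hT0).ne' (Real.sqrt_pos.2 hT0).ne', ← e1,
        Real.log_mul hz0.ne' hz0.ne']
      ring
    have e4 := Real.log_le_sub_one_of_pos hz0
    rw [e3, ← e1]
    nlinarith
  have h5 := sum_log_sqrt T
  have h6 : 2 / Real.log T * ∑ p ∈ (Icc 1 T).filter Nat.Prime, Real.log p * (√(p : ℝ))⁻¹ ≤
      2 / Real.log T * (3 * √T) := mul_le_mul_of_nonneg_left h5 (by positivity)
  have h7 : 2 * √(R : ℝ) ≤ 8 * √T / Real.log T := by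
    rw [le_div_iff₀ hlog]
    nlinarith
  calc _ ≤ 8 * √T / Real.log T + 2 / Real.log T * (3 * √T) := by linarith
    _ = 14 * √T / Real.log T := by ring

lemma card_le_log {E : ℕ} (hE : 0 < E) : (#E.primeFactors : ℝ) * Real.log 2 ≤ Real.log E := by
  have h1 : 2 ^ #E.primeFactors ≤ E := by
    calc 2 ^ #E.primeFactors = ∏ _p ∈ E.primeFactors, 2 := by rw [prod_const]
      _ ≤ ∏ p ∈ E.primeFactors, p := prod_le_prod' fun p hp => (Nat.prime_of_mem_primeFactors hp).two_le
      _ ≤ E := Nat.le_of_dvd hE (Nat.prod_primeFactors_dvd E)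
  have h2 : ((2 : ℝ)) ^ #E.primeFactors ≤ E := by exact_mod_cast h1
  have h3 := Real.log_le_log (by positivity) h2
  rwa [Real.log_pow] at h3

lemma cost_le {E T : ℕ} (hE : 0 < E) (hT : 2 ≤ T) :
    ∑ p ∈ E.primeFactors, (√(p : ℝ))⁻¹ ≤ 14 * √T / Real.log T + 2 * Real.log E / √T := by
  have hT0 : (0 : ℝ) < T := by exact_mod_cast (by omega : 0 < T)
  have hsT : 0 < √(T : ℝ) := Real.sqrt_pos.2 hT0
  have h1 : ∀ p ∈ E.primeFactors, (√(p : ℝ))⁻¹ ≤ (if p ≤ T then (√(p : ℝ))⁻¹ else 0) + (√(T : ℝ))⁻¹ := by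
    intro p _
    split_ifs with h
    · have : 0 ≤ (√(T : ℝ))⁻¹ := by positivity
      linarith
    · rw [zero_add]
      rw [not_le] at h
      exact inv_anti₀ hsT (Real.sqrt_le_sqrt (by exact_mod_cast h.le))
  refine (sum_le_sum h1).trans ?_
  rw [sum_add_distrib, ← sum_filter, sum_const, nsmul_eq_mul]
  refine add_le_add ?_ ?_
  · refine le_trans (sum_le_sum_of_subset_of_nonneg ?_ fun _ _ _ => by positivity) (sum_prime_sqrt hT)
    intro p hp
    rw [mem_filter] at hp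
    have := Nat.prime_of_mem_primeFactors hp.1
    rw [mem_filter, mem_Icc]
    exact ⟨⟨this.pos, hp.2⟩, this⟩
  · rw [← div_eq_mul_inv]
    refine div_le_div_of_nonneg_right ?_ hsT.le
    have h2 := card_le_log hE
    have h3 := Real.log_two_gt_d9
    have h4 : (0 : ℝ) ≤ #E.primeFactors := Nat.cast_nonneg _
    nlinarith

/-- **The cost.** -/
theorem cost {κ : ℝ} (hκ : 0 < κ) : ∃ c : ℝ, 0 < c ∧ ∀ᶠ L : ℝ in atTop, ∀ E : ℕ, 0 < E →
    Real.log E ≤ c * L → ∑ p ∈ E.primeFactors, (√(p : ℝ))⁻¹ ≤ κ * √(L / Real.log L) := by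
  set θ : ℝ := κ ^ 2 / 1568 with hθ
  have hθ0 : 0 < θ := by positivity
  have hsθ : 0 < √θ := Real.sqrt_pos.2 hθ0
  refine ⟨κ * √θ / 4, by positivity, ?_⟩
  have hlim : Tendsto (fun L : ℝ => θ * Real.log L) atTop atTop :=
    Real.tendsto_log_atTop.const_mul_atTop hθ0
  filter_upwards [hlim.eventually_ge_atTop 1, eventually_ge_atTop (Real.exp 1), eventually_ge_atTop 2] with
    L hL1 hL2 hL3 E hE hlogE
  have hL0 : 0 < L := by linarith
  have hlogL : 1 ≤ Real.log L := by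
    rw [Real.le_log_iff_exp_le hL0]
    exact hL2
  have hlogL0 : 0 < Real.log L := by linarith
  set y := θ * L * Real.log L with hy
  have hyL : L ≤ y := by
    have := mul_le_mul_of_nonneg_left hL1 hL0.le
    rw [hy]
    linarith
  set T := ⌈y⌉₊ with hT
  have hyT : y ≤ T := Nat.le_ceil y
  have hTy : (T : ℝ) ≤ 2 * y := by
    have := Nat.ceil_lt_add_one (show 0 ≤ y by linarith)
    rw [← hT] at this
    linarith
  have hT2 : 2 ≤ T := by
    have : (2 : ℝ) ≤ T := by linarith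
    exact_mod_cast this
  have h1 := cost_le hE hT2
  have hT0 : (0 : ℝ) < T := by linarith
  have hlT : Real.log L ≤ Real.log T := Real.log_le_log hL0 (by linarith)
  set Q := √(L / Real.log L) with hQ
  have hQ0 : 0 ≤ Q := Real.sqrt_nonneg _
  have e1 : √(L * Real.log L) = Q * Real.log L := by
    rw [hQ]
    nth_rewrite 3 [show Real.log L = √(Real.log L ^ 2) by rw [Real.sqrt_sq hlogL0.le]]
    rw [← Real.sqrt_mul (by positivity)]
    congr 1
    field_simp
  have h2 : 14 * √T / Real.log T ≤ κ / 2 * Q := by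
    have h3 : √(T : ℝ) ≤ √(2 * θ) * (Q * Real.log L) := by
      rw [← e1, ← Real.sqrt_mul (by positivity)]
      refine Real.sqrt_le_sqrt (hTy.trans (le_of_eq ?_))
      rw [hy]
      ring
    have h4 : 14 * √(2 * θ) = κ / 2 := by
      rw [hθ, show 2 * (κ ^ 2 / 1568) = (κ / 28) ^ 2 by ring, Real.sqrt_sq (by positivity)]
      ring
    rw [div_le_iff₀ (by linarith)]
    calc 14 * √(T : ℝ) ≤ 14 * (√(2 * θ) * (Q * Real.log L)) := by linarith
      _ = κ / 2 * Q * Real.log L := by rw [← h4]; ring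
      _ ≤ κ / 2 * Q * Real.log T := mul_le_mul_of_nonneg_left hlT (by positivity)
  have h3 : 2 * Real.log E / √T ≤ κ / 2 * Q := by
    have h4 : √θ * (Q * Real.log L) ≤ √(T : ℝ) := by
      rw [← e1, ← Real.sqrt_mul (by positivity)]
      refine Real.sqrt_le_sqrt (le_trans (le_of_eq ?_) hyT)
      rw [hy]
      ring
    rw [div_le_iff₀ (Real.sqrt_pos.2 hT0)]
    have e2 : Q * Q * Real.log L = L := by
      rw [hQ, Real.mul_self_sqrt (by positivity)]
      field_simp
    calc 2 * Real.log E ≤ 2 * (κ * √θ / 4 * L) := by linarith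
      _ = κ / 2 * Q * (√θ * (Q * Real.log L)) := by
        linear_combination (-(κ * √θ / 2)) * e2
      _ ≤ κ / 2 * Q * √T := mul_le_mul_of_nonneg_left h4 (by positivity)
  linarith

end Pool.Agent.Q28.CS
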