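import Mathlib

/-!
# Small relations modulo a small subgroup

`G` is a subgroup of the units modulo `q`.  A pair `(a, b)` of small coprime numbers with `a / b ∈ G` is
called a small relation.  If `G` is small, then all small relations prime to a suitable small number are
trivial.
-/

set_option autoImplicit false

namespace Pool.Agent.Q28.CS

open Finset

variable {q : ℕ}

/-- `a / b` lies in the subgroup `G` modulo `q` -/
def Rel (G : Subgroup (ZMod q)ˣ) (a b : ℕ) : Prop :=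
  ∃ g ∈ G, ((a : ℕ) : ZMod q) = (g : ZMod q) * ((b : ℕ) : ZMod q)

lemma Rel.mul {G : Subgroup (ZMod q)ˣ} {a b c d : ℕ} (h1 : Rel G a b) (h2 : Rel G c d) :
    Rel G (a * c) (b * d) := by
  obtain ⟨g, hg, e1⟩ := h1
  obtain ⟨h, hh, e2⟩ := h2
  refine ⟨g * h, G.mul_mem hg hh, ?_⟩
  push_cast
  rw [e1, e2]
  ring

/-- the invariant of the construction -/
def Inv (G : Subgroup (ZMod q)ˣ) (A j : ℕ) : Prop :=
  ∃ (E : ℕ) (V : Finset (ℕ × ℕ)), 0 < E ∧ E ≤ A ^ (2 * j) ∧ #V = 2 ^ j ∧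
    (∀ v ∈ V, v.1 ∣ E ∧ v.2 ∣ E ∧ v.1 ≤ A ^ j ∧ v.2 ≤ A ^ j ∧ Rel G v.1 v.2) ∧
    ∀ v ∈ V, ∀ w ∈ V, v.1 * w.2 = w.1 * v.2 → v = w

lemma inv_step {G : Subgroup (ZMod q)ˣ} {A i : ℕ} (hA : 1 ≤ A)
    (H : ∀ E : ℕ, 0 < E → E ≤ A ^ (2 * i) → ∃ a b : ℕ, 0 < a ∧ 0 < b ∧ a ≤ A ∧ b ≤ A ∧
      a.Coprime b ∧ a.Coprime E ∧ b.Coprime E ∧ Rel G a b ∧ ¬ (a = 1 ∧ b = 1)) {j : ℕ} (hj : j < i)
    (h : Inv G A j) : Inv G A (j + 1) := by
  classical
  obtain ⟨E, V, hE0, hEA, hV, h1, h2⟩ := h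
  obtain ⟨c, d, hc0, hd0, hcA, hdA, hcd, hcE, hdE, hrel, hne⟩ := H E hE0
    (hEA.trans (Nat.pow_le_pow_right hA (by omega)))
  have cross : ∀ v ∈ V, ∀ w ∈ V, v.1 * (w.2 * d) = w.1 * c * v.2 → False := by
    intro v hv w hw he
    obtain ⟨a1, a2, _⟩ := h1 v hv
    obtain ⟨b1, b2, _⟩ := h1 w hw
    apply hne
    constructor
    · have k1 : c.Coprime (v.1 * (w.2 * d)) := by
        refine Nat.Coprime.mul_right (Nat.Coprime.coprime_dvd_right a1 hcE)
          (Nat.Coprime.mul_right (Nat.Coprime.coprime_dvd_right b2 hcE) hcd)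
      refine Nat.Coprime.eq_one_of_dvd k1 ?_
      rw [he]
      exact Dvd.intro_left _ (by ring : w.1 * v.2 * c = w.1 * c * v.2)
    · have k1 : d.Coprime (w.1 * c * v.2) := by
        refine Nat.Coprime.mul_right (Nat.Coprime.mul_right (Nat.Coprime.coprime_dvd_right b1 hdE)
          hcd.symm) (Nat.Coprime.coprime_dvd_right a2 hdE)
      refine Nat.Coprime.eq_one_of_dvd k1 ?_
      rw [← he]
      exact Dvd.intro_left _ (by ring : v.1 * w.2 * d = v.1 * (w.2 * d))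
  set φ : ℕ × ℕ → ℕ × ℕ := fun v => (v.1 * c, v.2 * d) with hφ
  have hφi : Function.Injective φ := by
    intro v w h
    simp only [hφ, Prod.mk.injEq] at h
    exact Prod.ext (Nat.eq_of_mul_eq_mul_right hc0 h.1) (Nat.eq_of_mul_eq_mul_right hd0 h.2)
  have hdisj : Disjoint V (V.image φ) := by
    rw [disjoint_left]
    intro v hv hv2
    obtain ⟨w, hw, rfl⟩ := mem_image.1 hv2
    exact cross (φ w) hv w hw rfl
  refine ⟨E * (c * d), V ∪ V.image φ, by positivity, ?_, ?_, ?_, ?_⟩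
  · calc E * (c * d) ≤ A ^ (2 * j) * (A * A) :=
        Nat.mul_le_mul hEA (Nat.mul_le_mul hcA hdA)
      _ = A ^ (2 * (j + 1)) := by ring
  · rw [card_union_of_disjoint hdisj, card_image_of_injective _ hφi, hV]
    ring
  · intro v hv
    rcases mem_union.1 hv with hv | hv
    · obtain ⟨a1, a2, a3, a4, a5⟩ := h1 v hv
      exact ⟨a1.mul_right _, a2.mul_right _, a3.trans (Nat.pow_le_pow_right hA (by omega)),
        a4.trans (Nat.pow_le_pow_right hA (by omega)), a5⟩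
    · obtain ⟨w, hw, rfl⟩ := mem_image.1 hv
      obtain ⟨a1, a2, a3, a4, a5⟩ := h1 w hw
      refine ⟨Nat.mul_dvd_mul a1 (Dvd.intro _ rfl), Nat.mul_dvd_mul a2 (Dvd.intro_left _ rfl), ?_, ?_,
        a5.mul hrel⟩
      · simp only [hφ]
        rw [pow_succ]
        exact Nat.mul_le_mul a3 hcA
      · simp only [hφ]
        rw [pow_succ]
        exact Nat.mul_le_mul a4 hdA
  · intro v hv w hw he
    rcases mem_union.1 hv with hv | hv <;> rcases mem_union.1 hw with hw | hw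
    · exact h2 v hv w hw he
    · obtain ⟨w', hw', rfl⟩ := mem_image.1 hw
      exact (cross v hv w' hw' he).elim
    · obtain ⟨v', hv', rfl⟩ := mem_image.1 hv
      exact (cross w hw v' hv' he.symm).elim
    · obtain ⟨w', hw', rfl⟩ := mem_image.1 hw
      obtain ⟨v', hv', rfl⟩ := mem_image.1 hv
      congr 1
      refine h2 v' hv' w' hw' ?_
      simp only [hφ] at he
      have h3 : v'.1 * w'.2 * (c * d) = w'.1 * v'.2 * (c * d) := by
        calc _ = v'.1 * c * (w'.2 * d) := by ring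
          _ = w'.1 * c * (v'.2 * d) := he
          _ = _ := by ring
      exact Nat.eq_of_mul_eq_mul_right (by positivity) h3

/-- two small numbers which are congruent are equal -/
lemma eq_of_cast {a b : ℕ} (ha : a < q) (hb : b < q) (h : ((a : ℕ) : ZMod q) = ((b : ℕ) : ZMod q)) :
    a = b := by
  rw [ZMod.natCast_eq_natCast_iff] at h
  exact Nat.ModEq.eq_of_lt_of_lt h ha hb

lemma card_ge {G : Subgroup (ZMod q)ˣ} [Finite G] {V : Finset (ℕ × ℕ)} {A : ℕ} (hA : A * A < q)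
    (h1 : ∀ v ∈ V, v.1 ≤ A ∧ v.2 ≤ A ∧ Rel G v.1 v.2)
    (h2 : ∀ v ∈ V, ∀ w ∈ V, v.1 * w.2 = w.1 * v.2 → v = w) : #V ≤ Nat.card G := by
  classical
  have h3 : ∀ v : V, ∃ g : G, ((v.1.1 : ℕ) : ZMod q) = ((g : (ZMod q)ˣ) : ZMod q) * ((v.1.2 : ℕ) : ZMod q) := by
    intro v
    obtain ⟨g, hg, e⟩ := (h1 v.1 v.2).2.2
    exact ⟨⟨g, hg⟩, e⟩
  choose f hf using h3
  have hinj : Function.Injective f := by
    intro v w hvw
    have e1 := hf v
    have e2 := hf w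
    rw [← hvw] at e2
    apply Subtype.ext
    refine h2 v.1 v.2 w.1 w.2 (eq_of_cast (q := q) ?_ ?_ ?_)
    · exact lt_of_le_of_lt (Nat.mul_le_mul (h1 v.1 v.2).1 (h1 w.1 w.2).2.1) hA
    · exact lt_of_le_of_lt (Nat.mul_le_mul (h1 w.1 w.2).1 (h1 v.1 v.2).2.1) hA
    · push_cast
      rw [e1, e2]
      ring
  have := Nat.card_le_card_of_injective f hinj
  rwa [Nat.card_eq_fintype_card (α := V), Fintype.card_coe] at this

/-- **Small relations.** -/
theorem excl {G : Subgroup (ZMod q)ˣ} [Finite G] {A i : ℕ} (hA : 1 ≤ A) (hAq : A ^ (2 * i) < q)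
    (hG : Nat.card G < 2 ^ i) : ∃ E : ℕ, 0 < E ∧ E ≤ A ^ (2 * i) ∧ ∀ a b : ℕ, 0 < a → 0 < b → a ≤ A →
      b ≤ A → a.Coprime b → a.Coprime E → b.Coprime E → Rel G a b → a = 1 ∧ b = 1 := by
  by_contra hcon
  push Not at hcon
  have H : ∀ E : ℕ, 0 < E → E ≤ A ^ (2 * i) → ∃ a b : ℕ, 0 < a ∧ 0 < b ∧ a ≤ A ∧ b ≤ A ∧
      a.Coprime b ∧ a.Coprime E ∧ b.Coprime E ∧ Rel G a b ∧ ¬ (a = 1 ∧ b = 1) := by
    intro E h1 h2
    obtain ⟨a, b, k1, k2, k3, k4, k5, k6, k7, k8, k9⟩ := hcon E h1 h2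
    exact ⟨a, b, k1, k2, k3, k4, k5, k6, k7, k8, fun h => k9 h.1 h.2⟩
  have h0 : Inv G A 0 := by
    refine ⟨1, {(1, 1)}, one_pos, by simp, by simp, ?_, ?_⟩
    · intro v hv
      rw [mem_singleton] at hv
      subst hv
      refine ⟨one_dvd _, one_dvd _, by simp, by simp, 1, G.one_mem, by simp⟩
    · intro v hv w hw _
      rw [mem_singleton] at hv hw
      rw [hv, hw]
  have h1 : ∀ j, j ≤ i → Inv G A j := by
    intro j
    induction j with
    | zero => exact fun _ => h0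
    | succ j ih => exact fun hj => inv_step hA H (by omega) (ih (by omega))
  obtain ⟨E, V, _, _, hV, k1, k2⟩ := h1 i le_rfl
  have h2 : #V ≤ Nat.card G := by
    refine card_ge (A := A ^ i) ?_ (fun v hv => ?_) k2
    · rw [← pow_add, ← two_mul]
      exact hAq
    · obtain ⟨_, _, a3, a4, a5⟩ := k1 v hv
      exact ⟨a3, a4, a5⟩
  omega

end Pool.Agent.Q28.CS
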