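import Pool.Agent.Q28.CS.Core1

/-!
# The gain of the resonator
-/

set_option autoImplicit false
set_option linter.unusedSectionVars false

namespace Pool.Agent.Q28.CS

open Finset

variable {P : Finset ℕ} {I : ℕ} {l : ℝ}

lemma prod_injOn (hP : ∀ p ∈ P, p.Prime) :
    Set.InjOn (fun S : Finset ℕ => ∏ p ∈ S, p) (P.powerset : Finset (Finset ℕ)) := by
  intro S hS T hT h
  rw [mem_coe, mem_powerset] at hS hT
  replace h : ∏ p ∈ S, p = ∏ p ∈ T, p := h
  rw [← Nat.primeFactors_prod fun p hp => hP p (hS hp), h, Nat.primeFactors_prod fun p hp => hP p (hT hp)]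

lemma ww_prod (hP : ∀ p ∈ P, p.Prime) {S : Finset ℕ} (hS : S ⊆ P) : ww l (∏ p ∈ S, p) = l ^ #S := by
  unfold ww
  rw [Nat.primeFactors_prod fun p hp => hP p (hS hp)]

lemma sum_MM (hP : ∀ p ∈ P, p.Prime) (f : ℕ → ℝ) :
    ∑ m ∈ MM P I, f m = ∑ S ∈ P.powerset.filter (fun S => #S ≤ I), f (∏ p ∈ S, p) := by
  unfold MM
  rw [sum_image]
  exact (prod_injOn hP).mono (by intro S hS; exact mem_coe.2 (filter_subset _ _ (mem_coe.1 hS)))

/-- the main sum as a sum over sets -/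
lemma T0_ge (hP : ∀ p ∈ P, p.Prime) (hl : 0 ≤ l) :
    ∑ S ∈ P.powerset.filter (fun S => #S ≤ I), ∏ p ∈ S, ((l ^ 2 + l) / p) ≤ T0 P I l := by
  unfold T0
  rw [sum_MM hP]
  refine sum_le_sum fun S hS => ?_
  rw [mem_filter, mem_powerset] at hS
  have hSp : ∀ p ∈ S, p.Prime := fun p hp => hP p (hS.1 hp)
  have h1 : (1 + l) ^ #S ≤ ∑ n ∈ (MM P I).filter (fun n => n ∣ ∏ p ∈ S, p), ww l n := by
    have e1 : (1 + l) ^ #S = ∑ T ∈ S.powerset, l ^ #T := by
      have := Finset.sum_pow_mul_eq_add_pow l 1 S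
      simp only [one_pow, mul_one] at this
      rw [this, add_comm]
    have e2 : ∑ T ∈ S.powerset, l ^ #T = ∑ n ∈ S.powerset.image (fun T => ∏ p ∈ T, p), ww l n := by
      rw [sum_image (prod_injOn hSp)]
      refine sum_congr rfl fun T hT => ?_
      rw [ww_prod hSp (mem_powerset.1 hT)]
    rw [e1, e2]
    refine sum_le_sum_of_subset_of_nonneg ?_ fun n _ _ => ww_nonneg hl n
    intro n hn
    obtain ⟨T, hT, rfl⟩ := mem_image.1 hn
    rw [mem_powerset] at hT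
    rw [mem_filter]
    refine ⟨?_, prod_dvd_prod_of_subset _ _ _ hT⟩
    unfold MM
    exact mem_image_of_mem _ (mem_filter.2 ⟨mem_powerset.2 (hT.trans hS.1), (card_le_card hT).trans hS.2⟩)
  have e3 : ∏ p ∈ S, ((l ^ 2 + l) / p) = ww l (∏ p ∈ S, p) / ((∏ p ∈ S, p : ℕ) : ℝ) * (1 + l) ^ #S := by
    rw [ww_prod hP hS.1, prod_div_distrib, prod_const, show l ^ 2 + l = l * (1 + l) by ring, mul_pow]
    push_cast
    ring
  rw [e3]
  exact mul_le_mul_of_nonneg_left h1 (div_nonneg (ww_nonneg hl _) (Nat.cast_nonneg _))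

lemma T1_le (hP : ∀ p ∈ P, p.Prime) : T1 P I l ≤ ∏ p ∈ P, (1 + l ^ 2 / p) := by
  unfold T1
  rw [sum_MM hP, prod_one_add]
  refine (sum_le_sum (g := fun S : Finset ℕ => ∏ p ∈ S, l ^ 2 / (p : ℝ)) fun S hS => ?_).trans
    (sum_le_sum_of_subset_of_nonneg (filter_subset _ _) fun S _ _ => prod_nonneg fun p _ => by positivity)
  rw [mem_filter, mem_powerset] at hS
  rw [ww_prod hP hS.1, prod_div_distrib, prod_const, ← pow_mul, ← pow_mul, mul_comm (#S) 2]
  push_cast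
  exact le_rfl

lemma T1_pos (hP : ∀ p ∈ P, p.Prime) : 1 ≤ T1 P I l := by
  have h1 : (1 : ℕ) ∈ MM P I := by
    rw [mem_MM hP]
    simp
  unfold T1
  have h2 : ww l 1 ^ 2 / ((1 : ℕ) : ℝ) ≤ ∑ m ∈ MM P I, ww l m ^ 2 / (m : ℝ) :=
    single_le_sum (f := fun m : ℕ => ww l m ^ 2 / (m : ℝ)) (fun m _ => by positivity) h1
  have h3 : ww l 1 = 1 := by
    unfold ww
    simp
  rw [h3] at h2
  simpa using h2

/-- Rankin's trick -/
lemma rankin {x : ℕ → ℝ} (hx : ∀ p, 0 ≤ x p) :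
    ∏ p ∈ P, (1 + x p) - Real.exp (Real.exp 1 * ∑ p ∈ P, x p - I) ≤
      ∑ S ∈ P.powerset.filter (fun S => #S ≤ I), ∏ p ∈ S, x p := by
  have h1 : ∏ p ∈ P, (1 + x p) = ∑ S ∈ P.powerset.filter (fun S => #S ≤ I), ∏ p ∈ S, x p +
      ∑ S ∈ P.powerset.filter (fun S => ¬ #S ≤ I), ∏ p ∈ S, x p := by
    rw [prod_one_add, sum_filter_add_sum_filter_not]
  have h2 : ∑ S ∈ P.powerset.filter (fun S => ¬ #S ≤ I), ∏ p ∈ S, x p ≤
      Real.exp (-(I : ℝ)) * ∏ p ∈ P, (1 + Real.exp 1 * x p) := by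
    rw [prod_one_add, mul_sum]
    refine (sum_le_sum (g := fun S : Finset ℕ => Real.exp (-(I : ℝ)) * ∏ p ∈ S, (Real.exp 1 * x p))
      fun S hS => ?_).trans (sum_le_sum_of_subset_of_nonneg (filter_subset _ _) fun S _ _ =>
        mul_nonneg (Real.exp_pos _).le (prod_nonneg fun p _ => mul_nonneg (Real.exp_pos _).le (hx p)))
    rw [mem_filter, not_le] at hS
    rw [prod_mul_distrib, prod_const, ← Real.exp_nat_mul, ← mul_assoc, ← Real.exp_add]
    refine le_mul_of_one_le_left (prod_nonneg fun p _ => hx p) ?_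
    refine Real.one_le_exp ?_
    have : (I : ℝ) ≤ #S := by exact_mod_cast hS.2.le
    linarith
  have h3 : ∏ p ∈ P, (1 + Real.exp 1 * x p) ≤ Real.exp (Real.exp 1 * ∑ p ∈ P, x p) := by
    rw [mul_sum, Real.exp_sum]
    refine prod_le_prod (fun p _ => ?_) fun p _ => ?_
    · have := mul_nonneg (Real.exp_pos 1).le (hx p)
      linarith
    · rw [add_comm]
      exact Real.add_one_le_exp _
  have h4 : Real.exp (-(I : ℝ)) * ∏ p ∈ P, (1 + Real.exp 1 * x p) ≤
      Real.exp (Real.exp 1 * ∑ p ∈ P, x p - I) := by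
    rw [sub_eq_add_neg, Real.exp_add, mul_comm]
    exact mul_le_mul_of_nonneg_right h3 (Real.exp_pos _).le
  linarith

/-- **The gain.** -/
theorem gain (hP : ∀ p ∈ P, p.Prime) (hl : 1 ≤ l) (hlp : ∀ p ∈ P, l ^ 2 ≤ p) {s₁ : ℝ}
    (hs : ∑ p ∈ P, 1 / (p : ℝ) ≤ s₁) (hI : 8 * l ^ 2 * s₁ ≤ I) (hI3 : 4 ≤ I) :
    1 / 2 * Real.exp (l / 4 * ∑ p ∈ P, 1 / (p : ℝ)) * T1 P I l ≤ T0 P I l := by
  have hl0 : 0 ≤ l := by linarith
  set s := ∑ p ∈ P, 1 / (p : ℝ) with hsdef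
  have hs0 : 0 ≤ s := sum_nonneg fun p _ => by positivity
  set x : ℕ → ℝ := fun p => (l ^ 2 + l) / p with hx
  have hx0 : ∀ p, 0 ≤ x p := fun p => by simp only [hx]; positivity
  have hX : ∑ p ∈ P, x p = (l ^ 2 + l) * s := by
    rw [hsdef, mul_sum]
    refine sum_congr rfl fun p _ => ?_
    simp only [hx]
    ring
  have h1 : ∑ p ∈ P, x p ≤ I / 4 := by
    rw [hX]
    have h2 : (l ^ 2 + l) * s ≤ (2 * l ^ 2) * s₁ :=
      mul_le_mul (by nlinarith) hs hs0 (by positivity)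
    linarith
  have hr := rankin (P := P) (I := I) hx0
  have he := Real.exp_one_lt_d9
  have hI3' : (4 : ℝ) ≤ I := by exact_mod_cast hI3
  have hX0 : 0 ≤ ∑ p ∈ P, x p := sum_nonneg fun p _ => hx0 p
  have h2 : Real.exp (Real.exp 1 * ∑ p ∈ P, x p - I) ≤ 1 / 2 := by
    have h3 : Real.exp 1 * ∑ p ∈ P, x p - I ≤ -1 := by
      have h4 : Real.exp 1 * ∑ p ∈ P, x p ≤ 2.72 * (I / 4) :=
        mul_le_mul (by linarith) h1 hX0 (by norm_num)
      linarith
    refine (Real.exp_le_exp.2 h3).trans ?_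
    rw [Real.exp_neg, inv_le_comm₀ (Real.exp_pos _) (by norm_num)]
    have := Real.exp_one_gt_d9
    norm_num
    linarith
  have h3 : 1 ≤ ∏ p ∈ P, (1 + x p) := by
    calc (1 : ℝ) = ∏ _p ∈ P, (1 : ℝ) := by rw [prod_const_one]
      _ ≤ _ := prod_le_prod (fun _ _ => by norm_num) fun p _ => by linarith [hx0 p]
  have h4 : 1 / 2 * ∏ p ∈ P, (1 + x p) ≤ T0 P I l := by
    refine le_trans ?_ (T0_ge hP hl0)
    have h5 : ∑ S ∈ P.powerset.filter (fun S => #S ≤ I), ∏ p ∈ S, x p =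
        ∑ S ∈ P.powerset.filter (fun S => #S ≤ I), ∏ p ∈ S, ((l ^ 2 + l) / (p : ℝ)) := rfl
    rw [← h5]
    linarith
  refine le_trans ?_ h4
  rw [mul_assoc]
  refine mul_le_mul_of_nonneg_left ?_ (by norm_num)
  have h5 : Real.exp (l / 4 * s) = ∏ p ∈ P, Real.exp (l / (4 * p)) := by
    rw [← Real.exp_sum, hsdef, mul_sum]
    congr 1
    refine sum_congr rfl fun p _ => ?_
    ring
  calc Real.exp (l / 4 * s) * T1 P I l ≤ Real.exp (l / 4 * s) * ∏ p ∈ P, (1 + l ^ 2 / p) :=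
        mul_le_mul_of_nonneg_left (T1_le hP) (Real.exp_pos _).le
    _ = ∏ p ∈ P, (Real.exp (l / (4 * p)) * (1 + l ^ 2 / p)) := by rw [h5, prod_mul_distrib]
    _ ≤ ∏ p ∈ P, (1 + x p) := by
      refine prod_le_prod (fun p _ => by positivity) fun p hp => ?_
      have hp0 : (0 : ℝ) < p := by exact_mod_cast (hP p hp).pos
      have hlp' := hlp p hp
      have hlp2 : l ≤ p := by nlinarith
      set u : ℝ := l / (4 * p) with hu
      have hu0 : 0 ≤ u := by positivity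
      have hu1 : u ≤ 1 / 4 := by
        rw [hu, div_le_iff₀ (by positivity)]
        linarith
      have h6 : Real.exp u ≤ 1 + u + u ^ 2 := by
        have := Real.abs_exp_sub_one_sub_id_le (show |u| ≤ 1 by rw [abs_of_nonneg hu0]; linarith)
        have := (le_abs_self _).trans this
        linarith
      have h7 : Real.exp u ≤ 1 + 2 * u := by nlinarith
      have h8 : 2 * u = l / (2 * p) := by rw [hu]; field_simp; ring
      rw [h8] at h7
      have h9 : (1 + l / (2 * p)) * (1 + l ^ 2 / p) ≤ 1 + x p := by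
        simp only [hx]
        have e : 1 + (l ^ 2 + l) / p - (1 + l / (2 * p)) * (1 + l ^ 2 / p) =
            l * (p - l ^ 2) / (2 * p ^ 2) := by
          field_simp
          ring
        have : 0 ≤ l * (p - l ^ 2) / (2 * (p : ℝ) ^ 2) := by
          apply div_nonneg (mul_nonneg hl0 (by linarith)) (by positivity)
        linarith
      exact (mul_le_mul_of_nonneg_right h7 (by positivity)).trans h9

end Pool.Agent.Q28.CS
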