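import Pool.Agent.Q28.CS.Cost
import Pool.Agent.Q28.CS.Par
import Pool.Agent.Q28.BP.Asym

/-!
# Large central values in every coset of a large group of characters
-/

set_option autoImplicit false
set_option linter.unusedSectionVars false

namespace Pool.Agent.Q28.CS

open Finset Filter

lemma MM_le {P : Finset ℕ} {I Z : ℕ} (hP : ∀ p ∈ P, p.Prime) (hZ : ∀ p ∈ P, p ≤ Z) (hZ1 : 1 ≤ Z)
    {n : ℕ} (hn : n ∈ MM P I) : n ≤ Z ^ I := by
  obtain ⟨h1, h2, h3⟩ := (mem_MM hP).1 hn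
  calc n = ∏ p ∈ n.primeFactors, p := (Nat.prod_primeFactors_of_squarefree h1).symm
    _ ≤ ∏ _p ∈ n.primeFactors, Z := prod_le_prod' fun p hp => hZ p (h2 hp)
    _ = Z ^ #n.primeFactors := by rw [prod_const]
    _ ≤ Z ^ I := Nat.pow_le_pow_right hZ1 h3

lemma MM_coprime {P : Finset ℕ} {I m : ℕ} (hP : ∀ p ∈ P, p.Prime) (hm : ∀ p ∈ P, ¬ p ∣ m)
    {n : ℕ} (hn : n ∈ MM P I) : n.Coprime m := by
  obtain ⟨h1, h2, h3⟩ := (mem_MM hP).1 hn
  refine Nat.coprime_of_dvd fun k hk k1 k2 => ?_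
  exact hm k (h2 (Nat.mem_primeFactors.2 ⟨hk, k1, h1.ne_zero⟩)) k2

/-- the sum of the reciprocals of the primes -/
lemma primes_sum {C₀ : ℝ} (hC₀ : ∀ x : ℕ, 3 ≤ x →
    |∑ p ∈ (range (x + 1)).filter Nat.Prime, 1 / (p : ℝ) - Real.log (Real.log x)| ≤ C₀)
    {n B E : ℕ} (hn : 2 ≤ n) (hB : 1 ≤ B) (hE : 0 < E) :
    ∑ p ∈ (Ioc (n ^ 6) (n ^ (6 * B))).filter (fun p => p.Prime ∧ ¬ p ∣ E), 1 / (p : ℝ) ≤
      Real.log B + 2 * C₀ ∧
    Real.log B - 2 * C₀ - 2 * Real.log E / n ≤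
      ∑ p ∈ (Ioc (n ^ 6) (n ^ (6 * B))).filter (fun p => p.Prime ∧ ¬ p ∣ E), 1 / (p : ℝ) := by
  classical
  set Y := n ^ 6 with hY
  set Z := n ^ (6 * B) with hZ
  have hYZ : Y ≤ Z := Nat.pow_le_pow_right (by omega) (by omega)
  have hY3 : 3 ≤ Y := by
    calc 3 ≤ 2 ^ 6 := by norm_num
      _ ≤ n ^ 6 := Nat.pow_le_pow_left hn 6
  have hlogn : 0 < Real.log n := Real.log_pos (by exact_mod_cast (by omega : 1 < n))
  have e1 : Real.log (Real.log (Z : ℝ)) = Real.log B + Real.log (Real.log (Y : ℝ)) := by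
    rw [hZ, hY]
    push_cast
    rw [Real.log_pow, Real.log_pow]
    push_cast
    have hB0 : (0 : ℝ) < B := by exact_mod_cast hB
    rw [show (6 : ℝ) * B * Real.log n = B * (6 * Real.log n) by ring, Real.log_mul hB0.ne' (by positivity)]
  have h1 := hC₀ Y hY3
  have h2 := hC₀ Z (hY3.trans hYZ)
  have e2 : ∑ p ∈ (range (Z + 1)).filter Nat.Prime, 1 / (p : ℝ) =
      ∑ p ∈ (range (Y + 1)).filter Nat.Prime, 1 / (p : ℝ) + ∑ p ∈ (Ioc Y Z).filter Nat.Prime, 1 / (p : ℝ) := by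
    rw [← sum_union]
    · refine sum_congr ?_ fun _ _ => rfl
      ext p
      simp only [mem_union, mem_filter, mem_range, mem_Ioc]
      constructor
      · rintro ⟨k1, k2⟩
        by_cases k3 : p < Y + 1
        · exact Or.inl ⟨k3, k2⟩
        · exact Or.inr ⟨⟨by omega, by omega⟩, k2⟩
      · rintro (⟨k1, k2⟩ | ⟨k1, k2⟩)
        · exact ⟨by omega, k2⟩
        · exact ⟨by omega, k2⟩
    · rw [disjoint_left]
      intro p k1 k2
      rw [mem_filter, mem_range] at k1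
      rw [mem_filter, mem_Ioc] at k2
      omega
  have e3 : ∑ p ∈ (Ioc Y Z).filter Nat.Prime, 1 / (p : ℝ) =
      ∑ p ∈ (Ioc Y Z).filter (fun p => p.Prime ∧ ¬ p ∣ E), 1 / (p : ℝ) +
      ∑ p ∈ (Ioc Y Z).filter (fun p => p.Prime ∧ p ∣ E), 1 / (p : ℝ) := by
    rw [sum_filter, sum_filter, sum_filter, ← sum_add_distrib]
    refine sum_congr rfl fun p _ => ?_
    by_cases k1 : p.Prime <;> by_cases k2 : p ∣ E <;> simp [k1, k2]
  have hn0 : (0 : ℝ) < n := by exact_mod_cast (by omega : 0 < n)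
  have h3 : ∑ p ∈ (Ioc Y Z).filter (fun p => p.Prime ∧ p ∣ E), 1 / (p : ℝ) ≤ 2 * Real.log E / n := by
    calc ∑ p ∈ (Ioc Y Z).filter (fun p => p.Prime ∧ p ∣ E), 1 / (p : ℝ) ≤
        ∑ _p ∈ (Ioc Y Z).filter (fun p => p.Prime ∧ p ∣ E), 1 / (n : ℝ) := by
          refine sum_le_sum fun p hp => ?_
          rw [mem_filter, mem_Ioc] at hp
          refine one_div_le_one_div_of_le hn0 ?_
          have : n ≤ p := by
            calc n = n ^ 1 := (pow_one n).symm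
              _ ≤ n ^ 6 := Nat.pow_le_pow_right (by omega) (by norm_num)
              _ ≤ p := hp.1.1.le
          exact_mod_cast this
      _ = #((Ioc Y Z).filter (fun p => p.Prime ∧ p ∣ E)) * (1 / (n : ℝ)) := by
          rw [sum_const, nsmul_eq_mul]
      _ ≤ #E.primeFactors * (1 / (n : ℝ)) := by
          refine mul_le_mul_of_nonneg_right ?_ (by positivity)
          have : #((Ioc Y Z).filter (fun p => p.Prime ∧ p ∣ E)) ≤ #E.primeFactors := by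
            refine card_le_card fun p hp => ?_
            rw [mem_filter] at hp
            exact Nat.mem_primeFactors.2 ⟨hp.2.1, hp.2.2, hE.ne'⟩
          exact_mod_cast this
      _ ≤ 2 * Real.log E * (1 / (n : ℝ)) := by
          refine mul_le_mul_of_nonneg_right ?_ (by positivity)
          have h4 := card_le_log hE
          have h5 := Real.log_two_gt_d9
          have h6 : (0 : ℝ) ≤ #E.primeFactors := Nat.cast_nonneg _
          nlinarith
      _ = _ := by ring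
  have h4 : 0 ≤ ∑ p ∈ (Ioc Y Z).filter (fun p => p.Prime ∧ p ∣ E), 1 / (p : ℝ) :=
    sum_nonneg fun _ _ => by positivity
  rw [e1] at h2
  rw [e2] at h2
  rw [abs_le] at h1 h2
  constructor
  · linarith [h1.1, h1.2, h2.1, h2.2]
  · linarith [h1.1, h1.2, h2.1, h2.2]

lemma ev_sqrt (a b : ℝ) {ε : ℝ} (hε : 0 < ε) : ∀ᶠ L : ℝ in atTop, a * √L + b ≤ ε * L := by
  have h1 : Tendsto (fun L : ℝ => √L) atTop atTop := Real.tendsto_sqrt_atTop
  filter_upwards [h1.eventually_ge_atTop ((|a| + 1) / ε), h1.eventually_ge_atTop b,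
    eventually_ge_atTop 0] with L hL1 hL2 hL0
  rw [div_le_iff₀ hε] at hL1
  have h2 : √L * √L = L := Real.mul_self_sqrt hL0
  have h3 := Real.sqrt_nonneg L
  have h4 := le_abs_self a
  nlinarith

lemma log_le_sqrt {L : ℝ} (hL : 0 < L) : Real.log L ≤ 2 * √L := by
  have h1 := Real.log_le_sub_one_of_pos (Real.sqrt_pos.2 hL)
  have h2 : Real.log L = 2 * Real.log (√L) := by
    conv_lhs => rw [← Real.mul_self_sqrt hL.le]
    rw [Real.log_mul (Real.sqrt_pos.2 hL).ne' (Real.sqrt_pos.2 hL).ne']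
    ring
  linarith

lemma ev_log (a b : ℝ) {ε : ℝ} (hε : 0 < ε) : ∀ᶠ L : ℝ in atTop, a * Real.log L + b ≤ ε * L := by
  filter_upwards [ev_sqrt (2 * |a|) b hε, eventually_ge_atTop 1] with L h1 h2
  have h3 := log_le_sqrt (show 0 < L by linarith)
  have h4 : a * Real.log L ≤ |a| * Real.log L :=
    mul_le_mul_of_nonneg_right (le_abs_self a) (Real.log_nonneg h2)
  have h5 : |a| * Real.log L ≤ |a| * (2 * √L) := mul_le_mul_of_nonneg_left h3 (abs_nonneg a)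
  linarith

lemma nat_lt_of_log {a q : ℕ} (ha : 0 < a) (hq : 0 < q) (h : Real.log a < Real.log q) : a < q := by
  have h1 : (0 : ℝ) < a := by exact_mod_cast ha
  have h2 : (0 : ℝ) < q := by exact_mod_cast hq
  exact_mod_cast (Real.log_lt_log_iff h1 h2).1 h

lemma log_A {k₀ : ℕ} (hk : 1 ≤ k₀) {x : ℝ} (hx : Real.log k₀ ≤ x) (hx0 : 0 ≤ x) :
    Real.log ((((16 * k₀) ^ 3) ^ (2 * (Nat.log 2 k₀ + 1)) : ℕ) : ℝ) ≤ 6 * (3 / 2 * x + 1) * (x + 3) := by
  have hk0 : (0 : ℝ) < k₀ := by exact_mod_cast hk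
  have h2 := Real.log_two_gt_d9
  have h2' := Real.log_two_lt_d9
  have h1 : (Nat.log 2 k₀ : ℝ) * Real.log 2 ≤ Real.log k₀ := by
    have h3 : 2 ^ Nat.log 2 k₀ ≤ k₀ := Nat.pow_log_le_self 2 (by omega)
    have h4 : ((2 : ℝ)) ^ Nat.log 2 k₀ ≤ k₀ := by exact_mod_cast h3
    have h5 := Real.log_le_log (by positivity) h4
    rwa [Real.log_pow] at h5
  have h3 : (Nat.log 2 k₀ : ℝ) ≤ 3 / 2 * x := by
    have h4 : (0 : ℝ) ≤ Nat.log 2 k₀ := Nat.cast_nonneg _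
    nlinarith
  have e : Real.log ((((16 * k₀) ^ 3) ^ (2 * (Nat.log 2 k₀ + 1)) : ℕ) : ℝ) =
      6 * ((Nat.log 2 k₀ : ℝ) + 1) * (Real.log 16 + Real.log k₀) := by
    push_cast
    rw [Real.log_pow, Real.log_pow, Real.log_mul (by norm_num) hk0.ne']
    push_cast
    ring
  have h5 : Real.log 16 ≤ 3 := by
    rw [show (16 : ℝ) = 2 ^ 4 by norm_num, Real.log_pow]
    push_cast
    linarith
  have h6 : 0 ≤ Real.log 16 + Real.log k₀ := by
    have := Real.log_nonneg (show (1 : ℝ) ≤ k₀ by exact_mod_cast hk)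
    have := Real.log_nonneg (show (1 : ℝ) ≤ 16 by norm_num)
    linarith
  rw [e]
  refine mul_le_mul ?_ (by linarith) h6 (by positivity)
  linarith

lemma IL {B : ℕ} {s₁ L : ℝ} (hB : 1 ≤ B) (hs : 1 ≤ s₁) (hL : 100 ≤ L) (hlL : 1 ≤ Real.log L)
    (h : 2400 * B * (8 * s₁ + 4) * Real.log L ≤ L) : ∃ (I : ℕ) (l : ℝ), 4 ≤ I ∧
      (I : ℝ) ≤ L / (1200 * B * Real.log L) ∧ 1 ≤ l ∧ l ^ 2 ≤ L / 1200 ∧ 8 * l ^ 2 * s₁ ≤ I ∧
      √(1 / (19200 * B * s₁)) * √(L / Real.log L) ≤ l := by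
  have hB' : (1 : ℝ) ≤ B := by exact_mod_cast hB
  have hL0 : 0 < L := by linarith
  have hlL0 : 0 < Real.log L := by linarith
  set y₀ : ℝ := L / (1200 * B * Real.log L) with hy₀
  have hy₀0 : 0 ≤ y₀ := by positivity
  set I := ⌊y₀⌋₊ with hI
  have hIy : (I : ℝ) ≤ y₀ := Nat.floor_le hy₀0
  have hy₀2 : 2 * (8 * s₁ + 4) ≤ y₀ := by
    rw [hy₀, le_div_iff₀ (by positivity)]
    linarith
  have hyI : y₀ / 2 ≤ I := by
    have h1 := Nat.lt_floor_add_one y₀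
    rw [← hI] at h1
    linarith
  have hI4 : 4 ≤ I := by
    have : (4 : ℝ) ≤ I := by linarith
    exact_mod_cast this
  have hl2 : √(I / (8 * s₁)) ^ 2 = I / (8 * s₁) := Real.sq_sqrt (by positivity)
  refine ⟨I, √(I / (8 * s₁)), hI4, hIy, ?_, ?_, ?_, ?_⟩
  · refine Real.le_sqrt_of_sq_le ?_
    rw [one_pow, le_div_iff₀ (by positivity)]
    linarith
  · rw [hl2]
    refine le_trans (div_le_self (Nat.cast_nonneg I) (by linarith)) (hIy.trans ?_)
    rw [hy₀]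
    refine div_le_div_of_nonneg_left hL0.le (by norm_num) ?_
    nlinarith
  · rw [hl2]
    refine le_of_eq ?_
    field_simp
  · rw [← Real.sqrt_mul (by positivity)]
    refine Real.sqrt_le_sqrt ?_
    have h1 : 1 / (19200 * B * s₁) * (L / Real.log L) = y₀ / 2 / (8 * s₁) := by
      rw [hy₀]
      field_simp
      ring
    rw [h1]
    exact div_le_div_of_nonneg_right hyI (by positivity)

lemma NL {L : ℝ} (hL : 100 ≤ L) : ∃ n : ℕ, L ≤ n ∧ (n : ℝ) ≤ 2 * L ∧ 100 ≤ n ∧ 0 ≤ Real.log n ∧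
    Real.log n ≤ 2 * Real.log L := by
  have hL0 : 0 < L := by linarith
  set n := ⌈L⌉₊ with hn
  have hnL : L ≤ n := Nat.le_ceil L
  have hn2L : (n : ℝ) ≤ 2 * L := by
    have := Nat.ceil_lt_add_one hL0.le
    rw [← hn] at this
    linarith
  have hn0 : (0 : ℝ) < n := by linarith
  refine ⟨n, hnL, hn2L, ?_, Real.log_nonneg (by linarith), ?_⟩
  · have : (100 : ℝ) ≤ n := by linarith
    exact_mod_cast this
  · have h1 := Real.log_le_log hn0 hn2L
    rw [Real.log_mul (by norm_num) hL0.ne'] at h1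
    have h2 : Real.log 2 ≤ Real.log L := Real.log_le_log (by norm_num) (by linarith)
    linarith

lemma log16 : Real.log 16 ≤ 3 := by
  rw [show (16 : ℝ) = 2 ^ 4 by norm_num, Real.log_pow]
  push_cast
  have := Real.log_two_lt_d9
  linarith

lemma log18 : Real.log 18 ≤ 3 := by
  rw [Real.log_le_iff_le_exp (by norm_num)]
  have h5 := Real.exp_one_gt_d9
  have h6 : Real.exp 3 = Real.exp 1 ^ 3 := by rw [← Real.exp_nat_mul]; norm_num
  rw [h6]
  calc (18 : ℝ) ≤ 2.7 ^ 3 := by norm_num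
    _ ≤ Real.exp 1 ^ 3 := pow_le_pow_left₀ (by norm_num) (by linarith) 3

lemma two_pow_card {E : ℕ} (hE : 0 < E) : (4 : ℝ) ^ #E.primeFactors ≤ (E : ℝ) ^ 2 := by
  have h4 : (2 : ℝ) ^ #E.primeFactors ≤ E := by
    have h5 : 2 ^ #E.primeFactors ≤ E := by
      calc 2 ^ #E.primeFactors = ∏ _p ∈ E.primeFactors, 2 := by rw [prod_const]
        _ ≤ ∏ p ∈ E.primeFactors, p := prod_le_prod' fun p hp => (Nat.prime_of_mem_primeFactors hp).two_le
        _ ≤ E := Nat.le_of_dvd hE (Nat.prod_primeFactors_dvd E)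
    exact_mod_cast h5
  calc (4 : ℝ) ^ #E.primeFactors = (2 ^ #E.primeFactors) ^ 2 := by
        rw [← pow_mul, mul_comm _ 2, pow_mul]; norm_num
    _ ≤ E ^ 2 := pow_le_pow_left₀ (by positivity) h4 2

lemma KN {q k₀ M E : ℕ} (hq : 1 < q) (hk : 1 ≤ k₀) (hM : 1 ≤ M) (hE : 1 ≤ E) {x L : ℝ}
    (hL : L = Real.log q) (hL100 : 100 ≤ L) (hkx : Real.log k₀ ≤ x)
    (hlM : Real.log M ≤ L / 100) (hlE : Real.log E ≤ L / 100) (h1 : 4 * x + 12 ≤ 9 / 10 * L)
    (h2 : x + 2 * √L + 6 ≤ 4 / 10 * L) : ∃ K N : ℕ, K * M * (K * M) < q ∧ 1 ≤ K ∧ M ≤ K ∧ K ≤ N ∧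
      4 * 4 ^ #E.primeFactors * q * Real.log q ^ 2 ≤ (N : ℝ) ∧
      (k₀ : ℝ) * M * ((√(K : ℝ))⁻¹ + 6 * √N / q) ≤ 1 / 8 := by
  have hL0 : 0 < L := by linarith
  have hq0 : (0 : ℝ) < q := by exact_mod_cast (by omega : 0 < q)
  have hk0 : (0 : ℝ) < k₀ := by exact_mod_cast hk
  have hM0 : (0 : ℝ) < M := by exact_mod_cast hM
  have hE0 : (0 : ℝ) < E := by exact_mod_cast hE
  have hl16 := log16
  set w := #E.primeFactors with hw
  set K := (16 * k₀ * M) ^ 2 with hK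
  have hkM1 : 1 ≤ 16 * k₀ * M := Nat.mul_pos (by omega) (by omega)
  have hK1 : 1 ≤ K := Nat.one_le_pow _ _ (by omega)
  have hKM : M ≤ K := by
    calc M ≤ 16 * k₀ * M := Nat.le_mul_of_pos_left _ (by omega)
      _ = (16 * k₀ * M) ^ 1 := (pow_one _).symm
      _ ≤ (16 * k₀ * M) ^ 2 := Nat.pow_le_pow_right (by omega) (by norm_num)
  have hKMq : K * M * (K * M) < q := by
    refine nat_lt_of_log (by positivity) (by omega) ?_
    rw [hK, ← hL]
    push_cast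
    rw [Real.log_mul (by positivity) (by positivity), Real.log_mul (by positivity) (by positivity),
      Real.log_pow, Real.log_mul (by positivity) (by positivity), Real.log_mul (by positivity) (by positivity)]
    push_cast
    linarith
  set N := ⌈4 * 4 ^ w * q * L ^ 2⌉₊ with hN
  have hN' : 4 * 4 ^ w * q * L ^ 2 ≤ N := Nat.le_ceil _
  have hqN : (q : ℝ) ≤ 4 * 4 ^ w * q * L ^ 2 := by
    have h1 : (1 : ℝ) ≤ 4 ^ w := one_le_pow₀ (by norm_num)
    have h2 : (1 : ℝ) ≤ 4 * 4 ^ w * L ^ 2 := by nlinarith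
    calc (q : ℝ) = 1 * q := (one_mul _).symm
      _ ≤ (4 * 4 ^ w * L ^ 2) * q := mul_le_mul_of_nonneg_right h2 hq0.le
      _ = _ := by ring
  have hKN : K ≤ N := by
    have h1 : K ≤ K * M * (K * M) := by
      calc K = K * 1 * 1 := by ring
        _ ≤ K * M * (K * M) := Nat.mul_le_mul (Nat.mul_le_mul_left _ hM) (Nat.mul_pos hK1 hM)
    have h2 : (q : ℝ) ≤ N := hqN.trans hN'
    have h3 : q ≤ N := by exact_mod_cast h2
    omega
  have hsqN : √(N : ℝ) ≤ 3 * E * √q * L := by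
    have h1 : (N : ℝ) ≤ 2 * (4 * 4 ^ w * q * L ^ 2) := by
      have h2 := Nat.ceil_lt_add_one (show 0 ≤ 4 * 4 ^ w * (q : ℝ) * L ^ 2 by positivity)
      rw [← hN] at h2
      have h3 : (1 : ℝ) ≤ q := by exact_mod_cast hq.le
      linarith
    have h5 := two_pow_card (show 0 < E from hE)
    rw [← hw] at h5
    rw [show 3 * (E : ℝ) * √q * L = √((3 * E * √q * L) ^ 2) by rw [Real.sqrt_sq (by positivity)]]
    refine Real.sqrt_le_sqrt (h1.trans ?_)
    rw [mul_pow, mul_pow, mul_pow, Real.sq_sqrt hq0.le]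
    calc 2 * (4 * 4 ^ w * q * L ^ 2) = 8 * 4 ^ w * (q * L ^ 2) := by ring
      _ ≤ 9 * (E : ℝ) ^ 2 * (q * L ^ 2) := by
          refine mul_le_mul_of_nonneg_right ?_ (by positivity)
          have : (0 : ℝ) ≤ (E : ℝ) ^ 2 := by positivity
          linarith
      _ = _ := by ring
  have hN1 : (k₀ : ℝ) * M * (6 * √N / q) ≤ 1 / 16 := by
    have h1 : (k₀ : ℝ) * M * (6 * √N / q) ≤ 18 * k₀ * M * E * L * (√q / q) := by
      calc (k₀ : ℝ) * M * (6 * √N / q) = 6 * (k₀ * M) / q * √N := by ring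
        _ ≤ 6 * (k₀ * M) / q * (3 * E * √q * L) := mul_le_mul_of_nonneg_left hsqN (by positivity)
        _ = _ := by ring
    refine h1.trans ?_
    have h2' : √(q : ℝ) / q = Real.exp (-(L / 2)) := by
      rw [Real.sqrt_div_self', Real.sqrt_eq_rpow, Real.rpow_def_of_pos hq0, one_div, ← Real.exp_neg]
      congr 1
      rw [← hL]
      ring
    have h3 : 18 * (k₀ : ℝ) * M * E * L ≤ Real.exp (3 + x + L / 100 + L / 100 + 2 * √L) := by
      rw [← Real.log_le_iff_le_exp (by positivity), Real.log_mul (by positivity) (by positivity),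
        Real.log_mul (by positivity) (by positivity), Real.log_mul (by positivity) (by positivity),
        Real.log_mul (by positivity) (by positivity)]
      have h4 := log18
      have h5 := log_le_sqrt hL0
      linarith
    have h4 : (16 : ℝ) ≤ Real.exp 3 := by
      rw [← Real.log_le_iff_le_exp (by norm_num)]
      exact hl16
    rw [h2']
    calc 18 * (k₀ : ℝ) * M * E * L * Real.exp (-(L / 2)) ≤
        Real.exp (3 + x + L / 100 + L / 100 + 2 * √L) * Real.exp (-(L / 2)) :=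
          mul_le_mul_of_nonneg_right h3 (Real.exp_pos _).le
      _ = Real.exp (3 + x + L / 100 + L / 100 + 2 * √L + -(L / 2)) := by rw [← Real.exp_add]
      _ ≤ Real.exp (-3) := by
          refine Real.exp_le_exp.2 ?_
          linarith
      _ ≤ 1 / 16 := by
          rw [Real.exp_neg, one_div]
          exact inv_anti₀ (by norm_num) h4
  have hKk : (k₀ : ℝ) * M * (√(K : ℝ))⁻¹ = 1 / 16 := by
    have hsK : (√(K : ℝ))⁻¹ = (16 * k₀ * M : ℝ)⁻¹ := by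
      rw [hK]
      push_cast
      rw [Real.sqrt_sq (by positivity)]
    rw [hsK]
    field_simp
  refine ⟨K, N, hKMq, hK1, hKM, hKN, ?_, ?_⟩
  · rw [← hL]
    exact hN'
  · rw [mul_add, hKk]
    linarith

lemma eps_A {k₀ : ℕ} (hk : 1 ≤ k₀) :
    (k₀ : ℝ) * (((16 * k₀) ^ 3 : ℕ) : ℝ) ^ (-(1 / 3) : ℝ) = 1 / 16 := by
  have hk0 : (0 : ℝ) < k₀ := by exact_mod_cast hk
  have h1 : (((16 * k₀) ^ 3 : ℕ) : ℝ) ^ (-(1 / 3) : ℝ) = (16 * k₀ : ℝ)⁻¹ := by
    push_cast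
    rw [← Real.rpow_natCast (16 * (k₀ : ℝ)) 3, ← Real.rpow_mul (by positivity), ← Real.rpow_neg_one]
    norm_num
  rw [h1]
  field_simp

lemma final_num {y D T0' T1' T V : ℝ} (hy : 2 ≤ y) (hT1 : 1 ≤ T1')
    (h1 : V ≤ Real.exp (3 * y)) (h2 : Real.exp (4 * y) ≤ D)
    (h3 : 1 / 2 * D * T1' ≤ T0') (hT : T ≤ 1 / 8)
    (hmain : (1 - 1 / 16) * T0' ≤ ((V + 1) * (1 + 1 / 16) + T) * T1') : False := by
  have h4 : 7 ≤ Real.exp y := by
    have h5 := Real.exp_one_gt_d9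
    have h6 : Real.exp 1 ^ 2 ≤ Real.exp y := by
      rw [← Real.exp_nat_mul]
      refine Real.exp_le_exp.2 ?_
      push_cast
      linarith
    nlinarith
  have h5 : 1 ≤ Real.exp (3 * y) := Real.one_le_exp (by linarith)
  have h6 : Real.exp (4 * y) = Real.exp y * Real.exp (3 * y) := by
    rw [← Real.exp_add]
    congr 1
    ring
  set X := Real.exp (3 * y) with hX
  have h7 : 7 * X ≤ D := by
    refine le_trans ?_ h2
    rw [h6]
    exact mul_le_mul_of_nonneg_right h4 (by linarith)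
  have h8 : 1 / 2 * (7 * X) * T1' ≤ T0' := by
    refine le_trans ?_ h3
    exact mul_le_mul_of_nonneg_right (by linarith) (by linarith)
  have h9 : ((V + 1) * (1 + 1 / 16) + T) * T1' ≤ ((X + 1) * (17 / 16) + 1 / 8) * T1' :=
    mul_le_mul_of_nonneg_right (by linarith) (by linarith)
  have h10 := hmain.trans h9
  have h11 : (1 - 1 / 16) * (1 / 2 * (7 * X) * T1') ≤ ((X + 1) * (17 / 16) + 1 / 8) * T1' :=
    (mul_le_mul_of_nonneg_left h8 (by norm_num)).trans h10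
  have h12 : ((1 - 1 / 16) * (1 / 2 * (7 * X))) * T1' ≤ ((X + 1) * (17 / 16) + 1 / 8) * T1' := by
    linarith
  have h13 := le_of_mul_le_mul_right h12 (by linarith)
  linarith

lemma index_eq {q : ℕ} [NeZero q] (H : Subgroup (DirichletCharacter ℂ q))
    {𝓗 : Finset (DirichletCharacter ℂ q)} (hmH : ∀ χ, χ ∈ 𝓗 ↔ χ ∈ H) :
    Nat.card (orth H) = H.index := by
  classical
  have h1 := card_orth hmH
  have h2 : H.index * Nat.card H = q.totient := by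
    rw [Subgroup.index_mul_card]
    exact DirichletCharacter.card_eq_totient_of_hasEnoughRootsOfUnity ℂ q
  have h3 : Nat.card H = #𝓗 := by
    have h4 : Nat.card H = Nat.card {χ // χ ∈ 𝓗} :=
      Nat.card_congr (Equiv.subtypeEquivRight fun χ => (hmH χ).symm)
    rw [h4, Nat.card_eq_fintype_card, Fintype.card_coe]
  rw [h3] at h2
  have h5 : 0 < #𝓗 := card_pos.2 ⟨1, (hmH 1).2 H.one_mem⟩
  rw [mul_comm] at h2
  exact Nat.eq_of_mul_eq_mul_left h5 (h1.trans h2.symm)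

/-- the set of primes of the resonator -/
lemma PL {C₀ : ℝ} (hC₀ : ∀ x : ℕ, 3 ≤ x →
    |∑ p ∈ (range (x + 1)).filter Nat.Prime, 1 / (p : ℝ) - Real.log (Real.log x)| ≤ C₀)
    {n B E q I : ℕ} {L l : ℝ} (hq : q.Prime) (hL : L = Real.log q) (hn100 : 100 ≤ n) (hB1 : 1 ≤ B)
    (hB : 2 * C₀ + 1 ≤ Real.log B) (hE : 0 < E)
    (hnL : L ≤ n) (hlogn0 : 0 ≤ Real.log n) (hlogn : Real.log n ≤ 2 * Real.log L)
    (h7 : 12 * B * Real.log L ≤ 1 / 2 * L) (hL0 : 100 ≤ L) (hlL : 1 ≤ Real.log L)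
    (hlE : Real.log E ≤ L / 100) (hl1 : 1 ≤ l) (hl2 : l ^ 2 ≤ L / 1200)
    (hI : (I : ℝ) ≤ L / (1200 * B * Real.log L)) :
    ∃ (P : Finset ℕ) (M : ℕ), (∀ p ∈ P, p.Prime) ∧ 1 ≤ M ∧ Real.log M ≤ L / 100 ∧
      (∀ m ∈ MM P I, m ≤ M ∧ m.Coprime E ∧ m.Coprime q) ∧ (∀ p ∈ P, l ^ 2 ≤ p) ∧
      (∀ p ∈ P, 1 + l ≤ (p : ℝ) ^ (1 / 6 : ℝ)) ∧ ∑ p ∈ P, 1 / (p : ℝ) ≤ Real.log B + 2 * C₀ ∧
      1 / 2 ≤ ∑ p ∈ P, 1 / (p : ℝ) := by
  have hB0 : (0 : ℝ) < B := by exact_mod_cast hB1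
  have hn0 : (0 : ℝ) < n := by exact_mod_cast (by omega : 0 < n)
  set Z := n ^ (6 * B) with hZ
  set P := (Ioc (n ^ 6) Z).filter (fun p => p.Prime ∧ ¬ p ∣ E) with hP'
  have hP : ∀ p ∈ P, p.Prime := fun p hp => (mem_filter.1 hp).2.1
  have hPE : ∀ p ∈ P, ¬ p ∣ E := fun p hp => (mem_filter.1 hp).2.2
  have hPY : ∀ p ∈ P, n ^ 6 ≤ p := fun p hp => (mem_Ioc.1 (mem_filter.1 hp).1).1.le
  have hPZ : ∀ p ∈ P, p ≤ Z := fun p hp => (mem_Ioc.1 (mem_filter.1 hp).1).2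
  have hZ1 : 1 ≤ Z := Nat.one_le_pow _ _ (by omega)
  have hZq : Z < q := by
    refine nat_lt_of_log (by omega) hq.pos ?_
    rw [hZ, ← hL]
    push_cast
    rw [Real.log_pow]
    push_cast
    have h1 : (6 : ℝ) * B * Real.log n ≤ 6 * B * (2 * Real.log L) :=
      mul_le_mul_of_nonneg_left hlogn (by positivity)
    linarith
  have hPq : ∀ p ∈ P, ¬ p ∣ q := by
    intro p hp hd
    have h1 := (Nat.prime_dvd_prime_iff_eq (hP p hp) hq).1 hd
    have h2 := hPZ p hp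
    omega
  obtain ⟨hsum1, hsum2⟩ := primes_sum hC₀ (n := n) (B := B) (by omega) hB1 hE
  rw [← hZ, ← hP'] at hsum1 hsum2
  have hln : 1 + l ≤ n := by nlinarith
  refine ⟨P, Z ^ I, hP, Nat.one_le_pow _ _ (by omega), ?_, fun m hm =>
    ⟨MM_le hP hPZ hZ1 hm, MM_coprime hP hPE hm, MM_coprime hP hPq hm⟩, ?_, ?_, hsum1, ?_⟩
  · rw [hZ]
    push_cast
    rw [Real.log_pow, Real.log_pow]
    push_cast
    calc (I : ℝ) * (6 * B * Real.log n) ≤ L / (1200 * B * Real.log L) * (6 * B * (2 * Real.log L)) :=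
          mul_le_mul hI (mul_le_mul_of_nonneg_left hlogn (by positivity)) (by positivity) (by positivity)
      _ = L / 100 := by
          have : Real.log L ≠ 0 := by linarith
          field_simp
          ring
  · intro p hp
    have h1 : n ≤ p := by
      calc n = n ^ 1 := (pow_one n).symm
        _ ≤ n ^ 6 := Nat.pow_le_pow_right (by omega) (by norm_num)
        _ ≤ p := hPY p hp
    have h2 : (n : ℝ) ≤ p := by exact_mod_cast h1
    linarith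
  · intro p hp
    have h1 : ((n : ℝ)) ^ (6 : ℕ) ≤ p := by exact_mod_cast hPY p hp
    have h2 : ((n : ℝ) ^ (6 : ℕ)) ^ (1 / 6 : ℝ) = n := by
      rw [← Real.rpow_natCast, ← Real.rpow_mul hn0.le]
      norm_num
    calc 1 + l ≤ n := hln
      _ = ((n : ℝ) ^ (6 : ℕ)) ^ (1 / 6 : ℝ) := h2.symm
      _ ≤ (p : ℝ) ^ (1 / 6 : ℝ) := Real.rpow_le_rpow (by positivity) h1 (by norm_num)
  · have h1 : 2 * Real.log E / n ≤ 1 / 2 := by
      rw [div_le_iff₀ hn0]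
      linarith
    linarith

/-- **Large central values in every coset.** -/
theorem coset_large : ∃ c : ℝ, 0 < c ∧ ∃ q₀ : ℕ, ∀ (q : ℕ) [NeZero q], q.Prime → q₀ ≤ q →
    ∀ H : Subgroup (DirichletCharacter ℂ q), (H.index : ℝ) ≤ Real.exp (c * √(Real.log q)) →
      ∀ ψ : DirichletCharacter ℂ q, ∃ χ : DirichletCharacter ℂ q, ψ⁻¹ * χ ∈ H ∧ χ ≠ 1 ∧
        Real.exp (c * √(Real.log q / Real.log (Real.log q))) ≤ ‖χ.LFunction (1 / 2)‖ := by
  classical
  obtain ⟨C₀, hC₀0, hC₀⟩ := Pool.Agent.Q28.BP.sum_inv_loglog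
  obtain ⟨B, hB1, hB⟩ : ∃ B : ℕ, 1 ≤ B ∧ 2 * C₀ + 1 ≤ Real.log B := by
    refine ⟨⌈Real.exp (2 * C₀ + 1)⌉₊, ?_, ?_⟩
    · exact Nat.ceil_pos.2 (Real.exp_pos _)
    · rw [Real.le_log_iff_exp_le (by exact_mod_cast Nat.ceil_pos.2 (Real.exp_pos _))]
      exact Nat.le_ceil _
  have hB0 : (0 : ℝ) < B := by exact_mod_cast hB1
  set s₁ : ℝ := Real.log B + 2 * C₀ with hs₁
  have hs₁1 : 1 ≤ s₁ := by linarith
  set c₁ : ℝ := √(1 / (19200 * B * s₁)) with hc₁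
  have hc₁0 : 0 < c₁ := Real.sqrt_pos.2 (by positivity)
  obtain ⟨c₂, hc₂, hcost⟩ := cost (show 0 < c₁ / 16 by positivity)
  set δ : ℝ := min c₂ (1 / 100) with hδ
  have hδ0 : 0 < δ := lt_min hc₂ (by norm_num)
  have hδ2 : δ ≤ c₂ := min_le_left _ _
  have hδ3 : δ ≤ 1 / 100 := min_le_right _ _
  set c : ℝ := min (√(δ / 18)) (c₁ / 32) with hc
  have hc0 : 0 < c := lt_min (Real.sqrt_pos.2 (by positivity)) (by positivity)
  have hcδ : c ^ 2 ≤ δ / 18 := by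
    have h1 : c ≤ √(δ / 18) := min_le_left _ _
    calc c ^ 2 ≤ √(δ / 18) ^ 2 := pow_le_pow_left₀ hc0.le h1 2
      _ = δ / 18 := Real.sq_sqrt (by positivity)
  have hcc₁ : c ≤ c₁ / 32 := min_le_right _ _
  obtain ⟨L₀, hL₀⟩ := eventually_atTop.1 ((hcost.and ((ev_sqrt (33 * c) 18 (show 0 < δ / 2 by positivity)).and
    (ev_log (2400 * B * (8 * s₁ + 4)) 0 one_pos))).and (((ev_log ((64 / c₁) ^ 2) 0 one_pos).and
    (ev_sqrt (4 * c) 12 (show (0 : ℝ) < 9 / 10 by norm_num))).and (((ev_sqrt (c + 2) 6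
      (show (0 : ℝ) < 4 / 10 by norm_num)).and (ev_log (12 * B) 0 (show (0 : ℝ) < 1 / 2 by norm_num))).and
      (eventually_ge_atTop 100))))
  clear_value δ c₁ s₁ c
  refine ⟨c, hc0, ⌈Real.exp L₀⌉₊, fun q _ hq hqq H hH ψ => ?_⟩
  have hq0 : (0 : ℝ) < q := by exact_mod_cast hq.pos
  have hLL : L₀ ≤ Real.log q := by
    rw [Real.le_log_iff_exp_le hq0]
    exact (Nat.le_ceil _).trans (by exact_mod_cast hqq)
  obtain ⟨⟨hE1, hE2, hE3⟩, ⟨hE4, hE5⟩, ⟨hE6, hE7⟩, hE8⟩ := hL₀ _ hLL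
  clear hL₀ hcost hLL hqq
  obtain ⟨L, hLdef⟩ : ∃ L, L = Real.log q := ⟨_, rfl⟩
  rw [← hLdef] at hE1 hE2 hE3 hE4 hE5 hE6 hE7 hE8 hH ⊢
  rw [add_zero] at hE3 hE4 hE7
  rw [one_mul] at hE3 hE4
  have hL0 : 0 < L := by linarith only [hE8]
  have hq2 : q ≠ 2 := by
    rintro rfl
    have h1 := Real.log_two_lt_d9
    push_cast at hLdef
    linarith only [h1, hLdef, hE8]
  have hlL1 : 1 ≤ Real.log L := by
    rw [Real.le_log_iff_exp_le hL0]
    have := Real.exp_one_lt_d9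
    linarith only [this, hE8]
  have hlL0 : 0 < Real.log L := by linarith only [hlL1]
  obtain ⟨Q, hQ⟩ : ∃ Q, Q = √(L / Real.log L) := ⟨_, rfl⟩
  have hQ0 : 0 ≤ Q := by rw [hQ]; exact Real.sqrt_nonneg _
  have hQbig : 64 / c₁ ≤ Q := by
    rw [hQ]
    refine Real.le_sqrt_of_sq_le ?_
    rw [le_div_iff₀ hlL0]
    exact hE4
  rw [← hQ] at hE1 ⊢
  -- the families
  obtain ⟨𝓗, hmH⟩ : ∃ 𝓗 : Finset (DirichletCharacter ℂ q), ∀ χ, χ ∈ 𝓗 ↔ χ ∈ H :=
    ⟨univ.filter (· ∈ H), fun χ => by simp⟩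
  obtain ⟨𝓕, hmF⟩ : ∃ 𝓕 : Finset (DirichletCharacter ℂ q), ∀ χ, χ ∈ 𝓕 ↔ ψ⁻¹ * χ ∈ H :=
    ⟨univ.filter (fun χ => ψ⁻¹ * χ ∈ H), fun χ => by simp⟩
  have hidx := index_eq H hmH
  rw [← hidx] at hH
  have hk1 : 1 ≤ Nat.card (orth H) := Nat.card_pos
  obtain ⟨x, hx⟩ : ∃ x, x = c * √L := ⟨_, rfl⟩
  have hkx : Real.log (Nat.card (orth H)) ≤ x := by
    rw [Real.log_le_iff_le_exp (by exact_mod_cast hk1), hx]
    exact hH
  have hx0 : 0 ≤ x := by rw [hx]; positivity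
  have hxx : x ^ 2 ≤ δ / 18 * L := by
    rw [hx, mul_pow, Real.sq_sqrt hL0.le]
    exact mul_le_mul_of_nonneg_right hcδ hL0.le
  have hE2' : 33 * x + 18 ≤ δ / 2 * L := by
    rw [hx]
    linarith only [hE2]
  have hE5' : 4 * x + 12 ≤ 9 / 10 * L := by
    rw [hx]
    linarith only [hE5]
  have hE6' : x + 2 * √L + 6 ≤ 4 / 10 * L := by
    rw [hx]
    linarith only [hE6]
  -- the excluded number
  have hA1 : 1 ≤ (16 * Nat.card (orth H)) ^ 3 := Nat.one_le_pow _ _ (by omega)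
  have hlogA := (log_A hk1 hkx hx0).trans (show 6 * (3 / 2 * x + 1) * (x + 3) ≤ δ * L by
    have e : 6 * (3 / 2 * x + 1) * (x + 3) = 9 * x ^ 2 + 33 * x + 18 := by ring
    rw [e]
    linarith only [hxx, hE2'])
  have hδL : δ * L ≤ L / 100 := by
    have := mul_le_mul_of_nonneg_right hδ3 hL0.le
    linarith only [this]
  have hAq : ((16 * Nat.card (orth H)) ^ 3) ^ (2 * (Nat.log 2 (Nat.card (orth H)) + 1)) < q := by
    refine nat_lt_of_log (Nat.pow_pos hA1) hq.pos (lt_of_le_of_lt hlogA ?_)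
    rw [← hLdef]
    linarith only [hδL, hL0]
  obtain ⟨E, hE0, hEA, hrel⟩ := excl (G := orth H) hA1 hAq
    (Nat.lt_pow_succ_log_self (by norm_num) (Nat.card (orth H)))
  have hE0' : (0 : ℝ) < E := by exact_mod_cast hE0
  have hlogE : Real.log E ≤ δ * L :=
    (Real.log_le_log hE0' (by exact_mod_cast hEA)).trans hlogA
  have hcostE := hE1 E hE0 (hlogE.trans (mul_le_mul_of_nonneg_right hδ2 hL0.le))
  -- the parameters
  obtain ⟨n, hnL, hn2L, hn100, hlogn0, hlogn⟩ := NL hE8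
  obtain ⟨I, l, hI4, hIy, hl1, hlI, hlI2, hlQ⟩ := IL hB1 hs₁1 hE8 hlL1 hE3
  rw [← hc₁, ← hQ] at hlQ
  obtain ⟨P, M, hP, hM1, hlogM, hMM, hlp, hlP, hsum1, hs2⟩ := PL hC₀ (I := I) hq hLdef hn100 hB1 hB hE0 hnL
    hlogn0 hlogn hE7 hE8 hlL1 (hlogE.trans hδL) hl1 hlI hIy
  obtain ⟨K, N, hKMq, hK1, hKM, hKN, hN', hT⟩ := KN hq.one_lt hk1 hM1 hE0 hLdef hE8 hkx hlogM
    (hlogE.trans hδL) hE5' hE6'
  rw [← hs₁] at hsum1
  have hgain := gain (P := P) (I := I) (l := l) hP hl1 hlp (s₁ := s₁) hsum1 hlI2 hI4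
  -- conclusion
  by_contra hcon
  push Not at hcon
  have hmain := main_ineq (P := P) (I := I) (l := l) hq hq2 hmH hmF hA1 hE0.ne' hrel hKMq hK1 hM1 hKM hKN
    hN' hP (by linarith only [hl1]) hlP hMM (V := Real.exp (c * Q))
    (fun χ hχ hχ1 => (hcon χ ((hmF χ).1 hχ) hχ1).le) (Real.exp_pos _).le
  rw [eps_A hk1] at hmain
  refine final_num (y := c₁ * Q / 32) ?_ (T1_pos (P := P) (I := I) (l := l) hP) ?_ ?_ hgain hT hmain
  · have := mul_le_mul_of_nonneg_left hQbig hc₁0.le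
    rw [mul_div_cancel₀ _ hc₁0.ne'] at this
    linarith only [this]
  · rw [← Real.exp_add]
    refine Real.exp_le_exp.2 ?_
    have h2 : c * Q ≤ c₁ / 32 * Q := mul_le_mul_of_nonneg_right hcc₁ hQ0
    linarith only [h2, hcostE]
  · refine Real.exp_le_exp.2 ?_
    have : l / 4 * (1 / 2) ≤ l / 4 * ∑ p ∈ P, 1 / (p : ℝ) :=
      mul_le_mul_of_nonneg_left hs2 (by linarith only [hl1])
    linarith only [this, hlQ]

end Pool.Agent.Q28.CS
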